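import Mathlib

namespace Pool.Agent.Results.MP_975a4f_co.SingletonForcedH23

open Finset

/-! ### The notions of the problem -/

section Defs

variable {P : Type} [PartialOrder P] [Fintype P]

/-- the level `A_i` of the elements of rank `i` -/
def level (rk : P → ℕ) (i : ℕ) : Finset P := univ.filter (fun x => rk x = i)

open Classical in
/-- `N(X)`: the elements of the level `A_{i+1}` lying above some element of `X` -/
noncomputable def upN (rk : P → ℕ) (i : ℕ) (X : Finset P) : Finset P :=
  (level rk (i + 1)).filter (fun y => ∃ x ∈ X, x < y)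

/-- `P` with the rank function `rk` (levels `A_0, …, A_n`) is admissible: graded, rank-symmetric,
unimodal and a normalized matching poset -/
structure Admissible (n : ℕ) (rk : P → ℕ) : Prop where
  rank_le : ∀ x, rk x ≤ n
  nonempty : ∀ i, i ≤ n → (level rk i).Nonempty
  min_rank : ∀ x : P, IsMin x → rk x = 0
  cover_rank : ∀ x y : P, x ⋖ y → rk y = rk x + 1
  symm : ∀ i, i ≤ n → (level rk i).card = (level rk (n - i)).card
  unimodal : ∃ m, m ≤ n ∧
    (∀ i, i < m → (level rk i).card ≤ (level rk (i + 1)).card) ∧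
    (∀ i, m ≤ i → i < n → (level rk (i + 1)).card ≤ (level rk i).card)
  matching : ∀ i, i < n → ∀ X, X ⊆ level rk i → X.Nonempty →
    (X.card : ℚ) / (level rk i).card ≤ ((upN rk i X).card : ℚ) / (level rk (i + 1)).card

/-- a rank-symmetric chain -/
def RSChain (n : ℕ) (rk : P → ℕ) (C : Finset P) : Prop :=
  IsChain (· ≤ ·) (C : Set P) ∧
    ∀ i, i ≤ n → (C.filter (fun x => rk x = i)).card = (C.filter (fun x => rk x = n - i)).card

open Classical in
/-- the width: the maximum size of an antichain -/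
noncomputable def width (P : Type) [PartialOrder P] [Fintype P] : ℕ :=
  (univ.filter (fun A : Finset P => IsAntichain (· ≤ ·) (A : Set P))).sup Finset.card

/-- `g(P)` (called `gP`): the largest `k` such that `P` can be partitioned into rank-symmetric chains each of
size at least `k` -/
noncomputable def gP [DecidableEq P] (n : ℕ) (rk : P → ℕ) : ℕ :=
  sSup {k : ℕ | ∃ π : Finpartition (univ : Finset P), ∀ C ∈ π.parts, RSChain n rk C ∧ k ≤ C.card}

end Defs

/-- the set of the ratios `|P| / w(P)` over admissible `P` -/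
def ratios : Set ℚ :=
  {r | ∃ (P : Type) (_ : PartialOrder P) (_ : Fintype P) (_ : DecidableEq P) (n : ℕ) (rk : P → ℕ),
    Admissible n rk ∧ (Fintype.card P : ℚ) = r * width P}

/-- `f(r)` (called `fR`): the minimum of `g(P)` over the admissible `P` with `|P| = r w(P)` -/
noncomputable def fR (r : ℚ) : ℕ :=
  sInf {k | ∃ (P : Type) (_ : PartialOrder P) (_ : Fintype P) (_ : DecidableEq P) (n : ℕ)
    (rk : P → ℕ), Admissible n rk ∧ (Fintype.card P : ℚ) = r * width P ∧ gP n rk = k}

/-! ### The combinatorial core: the types of the levels and the relations -/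

/-- size of the middle level of the `k`-th poset -/
def w : ℕ → ℕ
  | 0 => 1
  | k + 1 => w k * (k + 2) * ((w k + 1) * (k + 2) + 1)

lemma w_pos : ∀ k, 0 < w k
  | 0 => Nat.one_pos
  | k + 1 => by
      have := w_pos k
      simp only [w]
      positivity

instance (k : ℕ) : NeZero (w k) := ⟨(w_pos k).ne'⟩

/-- number of positions on a track -/
def ell (k : ℕ) : ℕ := (w k + 1) * (k + 2) + 1

lemma ell_pos (k : ℕ) : 0 < ell k := Nat.succ_pos _

instance (k : ℕ) : NeZero (ell k) := ⟨(ell_pos k).ne'⟩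

/-- decoding of a middle element: copy, track, position -/
def dec (k : ℕ) : Fin (w (k + 1)) ≃ (Fin (w k) × Fin (k + 2)) × Fin (ell k) :=
  ((Equiv.prodCongr finProdFinEquiv (Equiv.refl _)).trans finProdFinEquiv).symm

/-- copy -/
def cc (k : ℕ) (m : Fin (w (k + 1))) : Fin (w k) := (dec k m).1.1
/-- track -/
def tt (k : ℕ) (m : Fin (w (k + 1))) : Fin (k + 2) := (dec k m).1.2
/-- position -/
def pp (k : ℕ) (m : Fin (w (k + 1))) : ℕ := ((dec k m).2 : ℕ)

lemma pp_lt (k : ℕ) (m : Fin (w (k + 1))) : pp k m < ell k := (dec k m).2.2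

lemma pp_eq (k : ℕ) (m : Fin (w (k + 1))) : pp k m = m.val % ell k := rfl
lemma tt_eq (k : ℕ) (m : Fin (w (k + 1))) : (tt k m : ℕ) = m.val / ell k % (k + 2) := rfl
lemma cc_eq (k : ℕ) (m : Fin (w (k + 1))) : (cc k m : ℕ) = m.val / ell k / (k + 2) := rfl

/-- encoding -/
def enc (k : ℕ) (c : Fin (w k)) (τ : Fin (k + 2)) (p : ℕ) : Fin (w (k + 1)) :=
  (dec k).symm ((c, τ), Fin.ofNat (ell k) p)

@[simp] lemma cc_enc (k : ℕ) (c : Fin (w k)) (τ : Fin (k + 2)) (p : ℕ) :
    cc k (enc k c τ p) = c := by simp [cc, enc]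
@[simp] lemma tt_enc (k : ℕ) (c : Fin (w k)) (τ : Fin (k + 2)) (p : ℕ) :
    tt k (enc k c τ p) = τ := by simp [tt, enc]
lemma pp_enc (k : ℕ) (c : Fin (w k)) (τ : Fin (k + 2)) (p : ℕ) (hp : p < ell k) :
    pp k (enc k c τ p) = p := by simp [pp, enc, Fin.ofNat, Nat.mod_eq_of_lt hp]

lemma ext3 (k : ℕ) {m m' : Fin (w (k + 1))} (h1 : cc k m = cc k m') (h2 : tt k m = tt k m')
    (h3 : pp k m = pp k m') : m = m' := by
  apply (dec k).injective
  apply Prod.ext
  · exact Prod.ext h1 h2
  · exact Fin.ext h3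

lemma succ_a (k : ℕ) (m : Fin (w (k + 1))) (h : pp k m + 1 < ell k) :
    cc k (m + 1) = cc k m ∧ tt k (m + 1) = tt k m ∧ pp k (m + 1) = pp k m + 1 := by
  have hval : (m + 1).val = m.val + 1 := by
    have h1 : m.val + 1 < w (k + 1) := by
      rcases Nat.lt_or_ge (m.val + 1) (w (k + 1)) with h' | h'
      · exact h'
      · exfalso
        have h2 : m.val + 1 = w k * (k + 2) * ell k := le_antisymm m.2 h'
        have h3 : (m.val + 1) % ell k = 0 := by rw [h2]; exact Nat.mul_mod_left _ _
        have h4 : (m.val + 1) % ell k = m.val % ell k + 1 := by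
          rw [Nat.add_mod, Nat.mod_eq_of_lt (a := 1) (by omega)]
          rw [pp_eq] at h
          exact Nat.mod_eq_of_lt h
        omega
    rw [Fin.val_add, Fin.val_one', Nat.add_mod_mod, Nat.mod_eq_of_lt h1]
  have hdm : (m.val + 1) / ell k = m.val / ell k ∧ (m.val + 1) % ell k = m.val % ell k + 1 := by
    rw [Nat.div_mod_unique (ell_pos k)]
    refine ⟨?_, ?_⟩
    · have := Nat.mod_add_div m.val (ell k)
      omega
    · rw [pp_eq] at h; exact h
  refine ⟨?_, ?_, ?_⟩
  · apply Fin.ext; rw [cc_eq, cc_eq, hval, hdm.1]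
  · apply Fin.ext; rw [tt_eq, tt_eq, hval, hdm.1]
  · rw [pp_eq, pp_eq, hval, hdm.2]

lemma succ_b (k : ℕ) (m : Fin (w (k + 1))) (h : pp k m + 1 = ell k) : pp k (m + 1) = 0 := by
  have e1 : pp k (m + 1) = (m.val + 1) % (w (k + 1)) % ell k := by
    rw [pp_eq, Fin.val_add, Fin.val_one', Nat.add_mod_mod]
  have e2 : (m.val + 1) % (w (k + 1)) % ell k = (m.val + 1) % ell k :=
    Nat.mod_mul_left_mod (m.val + 1) (w k * (k + 2)) (ell k)
  rw [e1, e2]
  rw [pp_eq] at h
  have := Nat.mod_add_div m.val (ell k)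
  have h2 : m.val + 1 = ell k * (m.val / ell k + 1) := by
    rw [Nat.mul_add]; omega
  rw [h2]; exact Nat.mul_mod_right _ _

/-- names of the copies of the smaller half-poset glued to the middle level -/
abbrev H (k : ℕ) : Type := Fin (k + 1) × Option (Fin (k + 2) × Option (Fin (w k)))

/-- the elements at distance `i` from the middle level, on either side -/
def L : ℕ → ℕ → Type
  | 0, k => Fin (w k)
  | _ + 1, 0 => Empty
  | i + 1, k + 1 => H k × L i k

instance instFintypeL : ∀ i k, Fintype (L i k)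
  | 0, k => inferInstanceAs (Fintype (Fin (w k)))
  | _ + 1, 0 => inferInstanceAs (Fintype Empty)
  | i + 1, k + 1 =>
      haveI := instFintypeL i k
      inferInstanceAs (Fintype (H k × L i k))

instance instDecL : ∀ i k, DecidableEq (L i k)
  | 0, k => inferInstanceAs (DecidableEq (Fin (w k)))
  | _ + 1, 0 => inferInstanceAs (DecidableEq Empty)
  | i + 1, k + 1 =>
      haveI := instDecL i k
      inferInstanceAs (DecidableEq (H k × L i k))

/-- number of the block to which a copy is attached -/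
def blk (s : Bool) (k : ℕ) (b : Option (Fin (w k))) (x : Fin (w k)) : ℕ :=
  match s, b with
  | false, none => w k
  | false, some _ => x.val
  | true, none => 0
  | true, some _ => x.val + 1

/-- the copy `h` glues the old middle element `x` to the new middle element `m` -/
def R (s : Bool) (k : ℕ) (h : H k) (x : Fin (w k)) (m : Fin (w (k + 1))) : Prop :=
  match s, h.2 with
  | false, none => cc k m = x ∧ pp k m = 0
  | true, none => cc k m = x ∧ pp k m = (w k + 1) * (k + 2)
  | false, some (τ, b) => cc k m = b.getD x ∧ tt k m = τ ∧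
      blk false k b x * (k + 2) < pp k m ∧ pp k m ≤ (blk false k b x + 1) * (k + 2) ∧
      (pp k m = (blk false k b x + 1) * (k + 2) → h.1 = 0)
  | true, some (τ, b) => cc k m = b.getD x ∧ tt k m = τ ∧
      blk true k b x * (k + 2) ≤ pp k m ∧ pp k m < (blk true k b x + 1) * (k + 2) ∧
      (pp k m = blk true k b x * (k + 2) → h.1 = 0)

/-- comparability with a middle element (`s = false`: below, `s = true`: above) -/
def B (s : Bool) : ∀ (i k : ℕ), L i k → Fin (w k) → Prop
  | 0, _, x, m => x = m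
  | _ + 1, 0, _, _ => False
  | i + 1, k + 1, x, m => ∃ m', B s i k x.2 m' ∧ R s k x.1 m' m

/-- comparability on one side, `x` farther from the middle than `y` -/
def Rel (s : Bool) : ∀ (j i k : ℕ), L i k → L j k → Prop
  | 0, i, k, x, y => B s i k x y
  | _ + 1, 0, _, _, _ => False
  | _ + 1, _ + 1, 0, _, _ => False
  | j + 1, i + 1, k + 1, x, y => x.1 = y.1 ∧ Rel s j i k x.2 y.2

/-- a labelled matching of the levels of the lower half with those of the upper half -/
structure Fam (k : ℕ) (Q : Type) (q0 : Q) where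
  mu : ∀ i, L (i + 1) k × Q → L (i + 1) k × Q
  inj : ∀ i, Function.Injective (mu i)
  lab : ∀ i, L (i + 1) k × Q → Option (Fin (w k))
  some_ax : ∀ i a m, lab i a = some m → a.2 = q0 ∧ (mu i a).2 = q0 ∧
    B false (i + 1) k a.1 m ∧ B true (i + 1) k (mu i a).1 m
  none_ax : ∀ i a, lab i a = none → ∃ m, B false (i + 1) k a.1 (m + 1) ∧
    B true (i + 1) k (mu i a).1 m
  cover : ∀ m, ∃ i a, lab i a = some m

/-- the node of block `t` on track `(c, τ)` -/
def low (k : ℕ) (c : Fin (w k)) (τ : Fin (k + 2)) (t : ℕ) (j : Fin (k + 1)) : H k × Fin (w k) :=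
  if ht : t < w k then ((j, some (τ, some c)), (⟨t, ht⟩ : Fin (w k))) else ((j, some (τ, none)), c)

/-- the upper node of block `t` on track `(c, τ)` -/
def upp (k : ℕ) (c : Fin (w k)) (τ : Fin (k + 2)) (t : ℕ) (j : Fin (k + 1)) : H k × Fin (w k) :=
  if ht : 0 < t ∧ t - 1 < w k then ((j, some (τ, some c)), (⟨t - 1, ht.2⟩ : Fin (w k)))
  else ((j, some (τ, none)), c)

lemma upp_fst (k : ℕ) (c : Fin (w k)) (τ : Fin (k + 2)) (t : ℕ) (j : Fin (k + 1)) :
    (upp k c τ t j).1.1 = j := by
  unfold upp; split_ifs <;> rfl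

lemma upp_inj (k : ℕ) (c : Fin (w k)) (τ : Fin (k + 2)) (t : ℕ) {j j' : Fin (k + 1)}
    (h : upp k c τ t j = upp k c τ t j') : j = j' := by
  rw [← upp_fst k c τ t j, h, upp_fst]

/-- `low` as an element of the level -/
def lowL (k : ℕ) (c : Fin (w k)) (τ : Fin (k + 2)) (t : ℕ) (j : Fin (k + 1)) : L 1 (k + 1) :=
  low k c τ t j

/-- `upp` as an element of the level -/
def uppL (k : ℕ) (c : Fin (w k)) (τ : Fin (k + 2)) (t : ℕ) (j : Fin (k + 1)) : L 1 (k + 1) :=
  upp k c τ t j

lemma low_char (k : ℕ) (c : Fin (w k)) (τ : Fin (k + 2)) (t : ℕ) (x : L 1 (k + 1))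
    (m : Fin (w (k + 1))) (hB : B false 1 (k + 1) x m) (hc : cc k m = c) (hτ : tt k m = τ)
    (h1 : t * (k + 2) < pp k m) (h2 : pp k m ≤ (t + 1) * (k + 2)) :
    ∃ j, x = lowL k c τ t j := by
  obtain ⟨m', hm', hR⟩ := hB
  obtain ⟨⟨j, b⟩, x⟩ := x
  change x = m' at hm'
  subst hm'
  refine ⟨j, ?_⟩
  match b, hR with
  | none, hR => 
    obtain ⟨-, hR⟩ := hR
    omega
  | some (τ', none), hR =>
    obtain ⟨e1, e2, e3, e4, -⟩ := hR
    have e1' : cc k m = x := e1
    change w k * (k + 2) < pp k m at e3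
    change pp k m ≤ (w k + 1) * (k + 2) at e4
    have a1 : t < w k + 1 := lt_of_mul_lt_mul_right (lt_of_lt_of_le h1 e4) (Nat.zero_le _)
    have a2 : w k < t + 1 := lt_of_mul_lt_mul_right (lt_of_lt_of_le e3 h2) (Nat.zero_le _)
    have a3 : ¬ t < w k := by omega
    unfold lowL low
    rw [dif_neg a3, ← hc, ← hτ, e1', e2]
    rfl
  | some (τ', some c'), hR =>
    obtain ⟨e1, e2, e3, e4, -⟩ := hR
    have e1' : cc k m = c' := e1
    change x.val * (k + 2) < pp k m at e3
    change pp k m ≤ (x.val + 1) * (k + 2) at e4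
    have a1 : t < x.val + 1 := lt_of_mul_lt_mul_right (lt_of_lt_of_le h1 e4) (Nat.zero_le _)
    have a2 : x.val < t + 1 := lt_of_mul_lt_mul_right (lt_of_lt_of_le e3 h2) (Nat.zero_le _)
    have a3 : t < w k := by omega
    unfold lowL low
    have a4 : x = ⟨t, a3⟩ := Fin.ext (by simp; omega)
    rw [dif_pos a3, ← hc, ← hτ, e1', e2, a4]
    rfl

lemma upp_spec (k : ℕ) (c : Fin (w k)) (τ : Fin (k + 2)) (t : ℕ) (ht : t ≤ w k)
    (j : Fin (k + 1)) (m : Fin (w (k + 1)))
    (hB : B true 1 (k + 1) (uppL k c τ t j) m) :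
    cc k m = c ∧ tt k m = τ ∧ t * (k + 2) ≤ pp k m ∧ pp k m < (t + 1) * (k + 2) := by
  obtain ⟨m', hm', hR⟩ := hB
  change (upp k c τ t j).2 = m' at hm'
  subst hm'
  change R true k (upp k c τ t j).1 (upp k c τ t j).2 m at hR
  unfold upp at hR
  by_cases h : 0 < t ∧ t - 1 < w k
  · rw [dif_pos h] at hR
    obtain ⟨e1, e2, e3, e4, -⟩ := hR
    have e : blk true k (some c) ⟨t - 1, h.2⟩ = t := by
      change t - 1 + 1 = t
      omega
    simp only [e] at e3 e4
    exact ⟨e1, e2, e3, e4⟩
  · rw [dif_neg h] at hR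
    obtain ⟨e1, e2, e3, e4, -⟩ := hR
    have ht0 : t = 0 := by
      by_contra h0
      exact h ⟨by omega, by omega⟩
    subst ht0
    exact ⟨e1, e2, e3, e4⟩

lemma low_ne_zero (k : ℕ) (m : Fin (w (k + 1))) (x : L 1 (k + 1)) 
    (hB : B false 1 (k + 1) x m) (h : pp k m = 0) : 
    ∃ j, x = (((j, none), cc k m) : H k × Fin (w k)) := by
  obtain ⟨m', hm', hR⟩ := hB
  obtain ⟨⟨j, b⟩, x⟩ := x
  change x = m' at hm'
  subst hm'
  match b, hR with
  | none, hR => 
    obtain ⟨e1, -⟩ := hR
    refine ⟨j, ?_⟩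
    rw [e1]
    rfl
  | some (τ', b'), hR =>
    obtain ⟨-, -, e3, -, -⟩ := hR
    omega

/-- the embedded copy of the `(i+1)`-st level on track `(c, τ)` -/
def iota (k : ℕ) (c : Fin (w k)) (τ : Fin (k + 2)) (Q : Type) (i : ℕ)
    (a : L (i + 1) k × (Fin (k + 1) × Q)) : L (i + 2) (k + 1) × Q :=
  ((((a.2.1, some (τ, some c)), a.1) : H k × L (i + 1) k), a.2.2)

lemma iota_inj (k : ℕ) (c : Fin (w k)) (τ : Fin (k + 2)) (Q : Type) (i : ℕ) :
    Function.Injective (iota k c τ Q i) := by
  intro a b hab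
  obtain ⟨a1, a2, a3⟩ := a
  obtain ⟨b1, b2, b3⟩ := b
  have h : ((((a2, some (τ, some c)), a1), a3) : (H k × L (i + 1) k) × Q) =
    (((b2, some (τ, some c)), b1), b3) := hab
  simp only [Prod.mk.injEq, and_true] at h
  obtain ⟨⟨h1, h2⟩, h3⟩ := h
  rw [h1, h2, h3]

/-- transition out of a lower embedded node -/
lemma trans_low (k i : ℕ) (x : L (i + 1) k) (j : Fin (k + 1)) (τ : Fin (k + 2)) (c : Fin (w k))
    (m1 : Fin (w (k + 1)))
    (hB : B false (i + 2) (k + 1) (((j, some (τ, some c)), x) : H k × L (i + 1) k) m1) :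
    ∃ x' : Fin (w k), B false (i + 1) k x x' ∧ cc k m1 = c ∧ tt k m1 = τ ∧
      x'.val * (k + 2) < pp k m1 ∧ pp k m1 ≤ (x'.val + 1) * (k + 2) ∧
      (pp k m1 = (x'.val + 1) * (k + 2) → j = 0) := by
  obtain ⟨m', hm', hR⟩ := hB
  exact ⟨m', hm', hR⟩

lemma trans_upp (k i : ℕ) (x : L (i + 1) k) (j : Fin (k + 1)) (τ : Fin (k + 2)) (c : Fin (w k))
    (m1 : Fin (w (k + 1)))
    (hB : B true (i + 2) (k + 1) (((j, some (τ, some c)), x) : H k × L (i + 1) k) m1) :
    ∃ x' : Fin (w k), B true (i + 1) k x x' ∧ cc k m1 = c ∧ tt k m1 = τ ∧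
      (x'.val + 1) * (k + 2) ≤ pp k m1 ∧ pp k m1 < (x'.val + 2) * (k + 2) ∧
      (pp k m1 = (x'.val + 1) * (k + 2) → j = 0) := by
  obtain ⟨m', hm', hR⟩ := hB
  exact ⟨m', hm', hR⟩

/-- case analysis for an upper node adjacent to `m` in the half-open block `x'` -/
lemma upp_cases (k i : ℕ) (y : L (i + 2) (k + 1)) (m : Fin (w (k + 1))) (x' : Fin (w k))
    (hB : B true (i + 2) (k + 1) y m) (h1 : x'.val * (k + 2) ≤ pp k m)
    (h2 : pp k m < (x'.val + 1) * (k + 2)) :
    x' = 0 ∨ ∃ (j : Fin (k + 1)) (y1 : L (i + 1) k) (y' : Fin (w k)),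
      y = (((j, some (tt k m, some (cc k m))), y1) : H k × L (i + 1) k) ∧
      B true (i + 1) k y1 y' ∧ x' = y' + 1 := by
  obtain ⟨m', hm', hR⟩ := hB
  obtain ⟨⟨j, b⟩, y1⟩ := y
  change B true (i + 1) k y1 m' at hm'
  match b, hR with
  | none, hR =>
    exfalso
    obtain ⟨-, hR⟩ := hR
    rw [hR] at h2
    have := lt_of_mul_lt_mul_right h2 (Nat.zero_le _)
    have := x'.2
    omega
  | some (τ', none), hR =>
    left
    obtain ⟨e1, e2, e3, e4, -⟩ := hR
    change pp k m < (0 + 1) * (k + 2) at e4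
    have := lt_of_mul_lt_mul_right (lt_of_le_of_lt h1 e4) (Nat.zero_le _)
    apply Fin.ext
    rw [Fin.val_zero]
    omega
  | some (τ', some c'), hR =>
    right
    obtain ⟨e1, e2, e3, e4, -⟩ := hR
    change cc k m = c' at e1
    change (m'.val + 1) * (k + 2) ≤ pp k m at e3
    change pp k m < (m'.val + 1 + 1) * (k + 2) at e4
    have a1 := lt_of_mul_lt_mul_right (lt_of_le_of_lt h1 e4) (Nat.zero_le _)
    have a2 := lt_of_mul_lt_mul_right (lt_of_le_of_lt e3 h2) (Nat.zero_le _)
    refine ⟨j, y1, m', ?_, hm', ?_⟩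
    · rw [e1, e2]
    · have := x'.2
      apply Fin.ext
      rw [Fin.val_add, Fin.val_one', Nat.add_mod_mod, Nat.mod_eq_of_lt (by omega)]
      omega

/-- case analysis for a lower node adjacent to `m1` -/
lemma low_cases (k i : ℕ) (y : L (i + 2) (k + 1)) (m1 : Fin (w (k + 1)))
    (hB : B false (i + 2) (k + 1) y m1) (h1 : 0 < pp k m1) :
    w k * (k + 2) < pp k m1 ∨ ∃ (j : Fin (k + 1)) (y1 : L (i + 1) k),
      y = (((j, some (tt k m1, some (cc k m1))), y1) : H k × L (i + 1) k) := by
  obtain ⟨m', hm', hR⟩ := hB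
  obtain ⟨⟨j, b⟩, y1⟩ := y
  match b, hR with
  | none, hR =>
    exfalso
    obtain ⟨-, hR⟩ := hR
    omega
  | some (τ', none), hR =>
    left
    exact hR.2.2.1
  | some (τ', some c'), hR =>
    right
    obtain ⟨e1, e2, -, -, -⟩ := hR
    change cc k m1 = c' at e1
    refine ⟨j, y1, ?_⟩
    rw [e1, e2]

lemma ell_eq (k : ℕ) : ell k = (w k + 1) * (k + 2) + 1 := rfl

theorem unlab_zero {k : ℕ} {Q : Type} {q0 : Q} (F : Fam (k + 1) Q q0) (c : Fin (w k)) :
    ∃ τ : Fin (k + 2), ∀ a, F.lab 0 a ≠ some (enc k c τ 0) := by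
  by_contra hcon
  push Not at hcon
  choose a ha using hcon
  have h1 : ∀ τ, ∃ j : Fin (k + 1), a τ = ((((j, none), c) : H k × Fin (w k)), q0) := by
    intro τ
    obtain ⟨e1, -, e3, -⟩ := F.some_ax 0 (a τ) _ (ha τ)
    obtain ⟨j, hj⟩ := low_ne_zero k _ _ e3 (pp_enc k c τ 0 (ell_pos k))
    rw [cc_enc] at hj
    exact ⟨j, Prod.ext hj e1⟩
  choose j hj using h1
  have hinj : Function.Injective j := by
    intro τ τ' h
    have h2 : a τ = a τ' := by rw [hj τ, hj τ', h]
    have h3 := ha τ
    rw [h2, ha τ'] at h3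
    have h4 := Option.some.inj h3
    have h5 := congrArg (tt k) h4
    rw [tt_enc, tt_enc] at h5
    exact h5.symm
  have := Fintype.card_le_of_injective j hinj
  simp at this

theorem unlab_succ {k : ℕ} {Q : Type} [Fintype Q] {q0 : Q} (F : Fam (k + 1) Q q0)
    (c : Fin (w k)) (τ : Fin (k + 2)) (t : ℕ) (ht : t ≤ w k)
    (h : ∀ a, F.lab 0 a ≠ some (enc k c τ (t * (k + 2)))) :
    ∀ a, F.lab 0 a ≠ some (enc k c τ ((t + 1) * (k + 2))) := by
  have hD : (t + 1) * (k + 2) < ell k := by
    rw [ell_eq]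
    exact Nat.lt_succ_of_le (Nat.mul_le_mul_right _ (by omega))
  have hD' : t * (k + 2) < ell k := lt_of_le_of_lt (Nat.mul_le_mul_right _ (by omega)) hD
  have surj : Function.Surjective (F.mu 0) := Finite.injective_iff_surjective.mp (F.inj 0)
  have key : ∀ z : Fin (k + 1) × Q, ∃ z' : Fin (k + 1) × Q,
      F.mu 0 (lowL k c τ t z'.1, z'.2) =
        (uppL k c τ t z.1, z.2) := by
    intro z
    obtain ⟨a, ha⟩ := surj (uppL k c τ t z.1, z.2)
    have hex : ∃ m, B false 1 (k + 1) a.1 m ∧ cc k m = c ∧ tt k m = τ ∧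
        t * (k + 2) < pp k m ∧ pp k m ≤ (t + 1) * (k + 2) := by
      cases hl : F.lab 0 a with
      | some m =>
        obtain ⟨-, -, e3, e4⟩ := F.some_ax 0 a m hl
        rw [ha] at e4
        obtain ⟨u1, u2, u3, u4⟩ := upp_spec k c τ t ht z.1 m e4
        refine ⟨m, e3, u1, u2, lt_of_le_of_ne u3 ?_, u4.le⟩
        intro h5
        apply h a
        rw [hl]
        congr 1
        apply ext3
        · rw [cc_enc, u1]
        · rw [tt_enc, u2]
        · rw [pp_enc _ _ _ _ hD', h5]
      | none =>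
        obtain ⟨m, e3, e4⟩ := F.none_ax 0 a hl
        rw [ha] at e4
        obtain ⟨u1, u2, u3, u4⟩ := upp_spec k c τ t ht z.1 m e4
        obtain ⟨v1, v2, v3⟩ := succ_a k m (by omega)
        exact ⟨m + 1, e3, v1.trans u1, v2.trans u2, by omega, by omega⟩
    obtain ⟨m, b1, b2, b3, b4, b5⟩ := hex
    obtain ⟨j, hj⟩ := low_char k c τ t a.1 m b1 b2 b3 b4 b5
    refine ⟨(j, a.2), ?_⟩
    rw [← ha]
    congr 1
    exact Prod.ext hj.symm rfl
  choose g hg using key
  have ginj : Function.Injective g := by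
    intro z z' hz
    have h1 := hg z
    rw [hz, hg z'] at h1
    have h2 := congrArg Prod.fst h1
    have h3 := congrArg Prod.snd h1
    exact Prod.ext (upp_inj k c τ t h2).symm h3.symm
  have gsurj : Function.Surjective g := Finite.injective_iff_surjective.mp ginj
  intro a ha
  obtain ⟨-, -, e3, e4⟩ := F.some_ax 0 a _ ha
  have hp := pp_enc k c τ _ hD
  obtain ⟨j, hj⟩ := low_char k c τ t a.1 _ e3 (cc_enc _ _ _ _) (tt_enc _ _ _ _)
    (by rw [hp]; exact Nat.mul_lt_mul_of_pos_right (by omega) (by omega)) (by rw [hp])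
  obtain ⟨z, hz⟩ := gsurj (j, a.2)
  have h1 := hg z
  rw [hz] at h1
  have h2 : a = (lowL k c τ t j, a.2) := Prod.ext hj rfl
  rw [h2] at e4
  have h3 : F.mu 0 (lowL k c τ t j, a.2) =
      (uppL k c τ t z.1, z.2) := h1
  rw [h3] at e4
  obtain ⟨-, -, -, u4⟩ := upp_spec k c τ t ht z.1 _ e4
  rw [hp] at u4
  exact lt_irrefl _ u4

theorem unlab_all {k : ℕ} {Q : Type} [Fintype Q] {q0 : Q} (F : Fam (k + 1) Q q0)
    (c : Fin (w k)) :
    ∃ τ : Fin (k + 2), ∀ t, t ≤ w k + 1 → ∀ a, F.lab 0 a ≠ some (enc k c τ (t * (k + 2))) := by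
  obtain ⟨τ, hτ⟩ := unlab_zero F c
  refine ⟨τ, ?_⟩
  intro t
  induction t with
  | zero => intro _; rw [Nat.zero_mul]; exact hτ
  | succ t ih => intro ht; exact unlab_succ F c τ t (by omega) (ih (by omega))

/-- extension of an injection defined on a subset -/
lemma ext_exists {α β : Type} [Fintype α] (ι : α → β) (hι : Function.Injective ι)
    (μ : β → β) (hμ : Function.Injective μ) :
    ∃ μ' : α → α, Function.Injective μ' ∧ (∀ a b, μ (ι a) = ι b → μ' a = b) ∧
      (∀ a, (∀ b, μ (ι a) ≠ ι b) → ∀ a', μ (ι a') ≠ ι (μ' a)) := by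
  classical
  set S : Set α := {a | ∃ b, μ (ι a) = ι b} with hS
  let f : α → α := fun a => if h : ∃ b, μ (ι a) = ι b then h.choose else a
  have hf : ∀ a ∈ S, μ (ι a) = ι (f a) := by
    intro a ha
    have ha' : ∃ b, μ (ι a) = ι b := ha
    simp only [f, dif_pos ha']
    exact ha'.choose_spec
  obtain ⟨g, hg⟩ := Set.MapsTo.exists_equiv_extend_of_card_eq (α := α) (β := α)
    (t := (Finset.univ : Finset α)) (by rw [Finset.card_univ]) (s := S) (f := f)
    (by intro a _; simp) (by
      intro a ha a' ha' h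
      apply hι
      apply hμ
      rw [hf a ha, hf a' ha', h])
  refine ⟨fun a => (g a : α), ?_, ?_, ?_⟩
  · intro a a' h
    exact g.injective (Subtype.ext h)
  · intro a b hab
    have ha : a ∈ S := ⟨b, hab⟩
    apply hι
    change ι (g a : α) = ι b
    rw [hg a ha, ← hf a ha, hab]
  · intro a ha a' ha'
    have h1 : a' ∈ S := ⟨_, ha'⟩
    have h2 := hf a' h1
    rw [← hg a' h1] at h2
    rw [ha'] at h2
    have h3 : (g a : α) = (g a' : α) := hι h2
    have h4 : a = a' := g.injective (Subtype.ext h3)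
    rw [h4] at ha
    exact ha _ (h4 ▸ ha')

lemma upp_gen (k i : ℕ) (y : L (i + 2) (k + 1)) (m : Fin (w (k + 1)))
    (hB : B true (i + 2) (k + 1) y m) (h1 : k + 2 ≤ pp k m)
    (h2 : pp k m < (w k + 1) * (k + 2)) :
    ∃ (j : Fin (k + 1)) (y1 : L (i + 1) k) (y' : Fin (w k)),
      y = (((j, some (tt k m, some (cc k m))), y1) : H k × L (i + 1) k) ∧
      B true (i + 1) k y1 y' ∧ (y'.val + 1) * (k + 2) ≤ pp k m ∧
      pp k m < (y'.val + 2) * (k + 2) ∧ (pp k m = (y'.val + 1) * (k + 2) → j = 0) := by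
  obtain ⟨m', hm', hR⟩ := hB
  obtain ⟨⟨j, b⟩, y1⟩ := y
  change B true (i + 1) k y1 m' at hm'
  match b, hR with
  | none, hR =>
    exfalso
    obtain ⟨-, hR⟩ := hR
    omega
  | some (τ', none), hR =>
    exfalso
    obtain ⟨e1, e2, e3, e4, -⟩ := hR
    change pp k m < (0 + 1) * (k + 2) at e4
    omega
  | some (τ', some c'), hR =>
    obtain ⟨e1, e2, e3, e4, e5⟩ := hR
    change cc k m = c' at e1
    refine ⟨j, y1, m', ?_, hm', e3, e4, e5⟩
    rw [e1, e2]

lemma low_gen (k i : ℕ) (y : L (i + 2) (k + 1)) (m : Fin (w (k + 1)))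
    (hB : B false (i + 2) (k + 1) y m) (h1 : 0 < pp k m)
    (h2 : pp k m ≤ w k * (k + 2)) :
    ∃ (j : Fin (k + 1)) (y1 : L (i + 1) k) (y' : Fin (w k)),
      y = (((j, some (tt k m, some (cc k m))), y1) : H k × L (i + 1) k) ∧
      B false (i + 1) k y1 y' ∧ y'.val * (k + 2) < pp k m ∧
      pp k m ≤ (y'.val + 1) * (k + 2) ∧ (pp k m = (y'.val + 1) * (k + 2) → j = 0) := by
  obtain ⟨m', hm', hR⟩ := hB
  obtain ⟨⟨j, b⟩, y1⟩ := y
  change B false (i + 1) k y1 m' at hm'
  match b, hR with
  | none, hR =>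
    exfalso
    obtain ⟨-, hR⟩ := hR
    omega
  | some (τ', none), hR =>
    exfalso
    obtain ⟨e1, e2, e3, e4, -⟩ := hR
    change w k * (k + 2) < pp k m at e3
    omega
  | some (τ', some c'), hR =>
    obtain ⟨e1, e2, e3, e4, e5⟩ := hR
    change cc k m = c' at e1
    refine ⟨j, y1, m', ?_, hm', e3, e4, e5⟩
    rw [e1, e2]

lemma last_add_one (k : ℕ) (y : Fin (w k)) (h : w k ≤ y.val + 1) : y + 1 = 0 := by
  apply Fin.ext
  have := y.2
  rw [Fin.val_add, Fin.val_one', Nat.add_mod_mod, Fin.val_zero]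
  have h1 : y.val + 1 = w k := by omega
  rw [h1, Nat.mod_self]

/-- junction positions -/
lemma junc_lt (k : ℕ) (t : Fin (w k)) : (t.val + 1) * (k + 2) < ell k := by
  have := t.2
  rw [ell_eq]
  exact Nat.lt_succ_of_le (Nat.mul_le_mul_right _ (by omega))

lemma iota_eta {k : ℕ} {c : Fin (w k)} {τ : Fin (k + 2)} {Q : Type} {i : ℕ}
    (a : L (i + 2) (k + 1) × Q) (j : Fin (k + 1)) (y : L (i + 1) k)
    (h : a.1 = (((j, some (τ, some c)), y) : H k × L (i + 1) k)) :
    a = iota k c τ Q i (y, (j, a.2)) := Prod.ext h rfl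

theorem fam_step {k : ℕ} {Q : Type} [Fintype Q] {q0 : Q} (F : Fam (k + 1) Q q0) :
    Nonempty (Fam k (Fin (k + 1) × Q) (0, q0)) := by
  classical
  obtain ⟨τ, hτ⟩ := unlab_all F (0 : Fin (w k))
  have hext : ∀ i, ∃ μ' : L (i + 1) k × (Fin (k + 1) × Q) → L (i + 1) k × (Fin (k + 1) × Q),
      Function.Injective μ' ∧
      (∀ a b, F.mu (i + 1) (iota k 0 τ Q i a) = iota k 0 τ Q i b → μ' a = b) ∧
      (∀ a, (∀ b, F.mu (i + 1) (iota k 0 τ Q i a) ≠ iota k 0 τ Q i b) →
        ∀ a', F.mu (i + 1) (iota k 0 τ Q i a') ≠ iota k 0 τ Q i (μ' a)) :=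
    fun i => ext_exists _ (iota_inj k 0 τ Q i) _ (F.inj (i + 1))
  choose μ' hμ1 hμ2 hμ3 using hext
  -- junction label
  let junc : Fin (w k) → Fin (w (k + 1)) := fun t => enc k 0 τ ((t.val + 1) * (k + 2))
  have hjc : ∀ t, cc k (junc t) = 0 := fun t => cc_enc _ _ _ _
  have hjt : ∀ t, tt k (junc t) = τ := fun t => tt_enc _ _ _ _
  have hjp : ∀ t, pp k (junc t) = (t.val + 1) * (k + 2) := fun t => pp_enc _ _ _ _ (junc_lt k t)
  have hjinj : ∀ t t', junc t = junc t' → t = t' := by
    intro t t' h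
    have h1 := congrArg (pp k) h
    rw [hjp, hjp] at h1
    have h2 := Nat.eq_of_mul_eq_mul_right (by omega : 0 < k + 2) h1
    exact Fin.ext (by omega)
  let lab' : ∀ i, L (i + 1) k × (Fin (k + 1) × Q) → Option (Fin (w k)) := fun i a =>
    if h : ∃ t, F.lab (i + 1) (iota k 0 τ Q i a) = some (junc t) then some h.choose else none
  have hlab : ∀ i a t, lab' i a = some t ↔ F.lab (i + 1) (iota k 0 τ Q i a) = some (junc t) := by
    intro i a t
    constructor
    · intro h
      by_cases hh : ∃ t, F.lab (i + 1) (iota k 0 τ Q i a) = some (junc t)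
      · simp only [lab', dif_pos hh] at h
        have h1 := hh.choose_spec
        rw [Option.some.inj h] at h1
        exact h1
      · simp only [lab', dif_neg hh] at h
        exact absurd h (by simp)
    · intro h
      have hh : ∃ t, F.lab (i + 1) (iota k 0 τ Q i a) = some (junc t) := ⟨t, h⟩
      simp only [lab', dif_pos hh]
      have h1 := hh.choose_spec
      exact congrArg some (hjinj _ _ (Option.some.inj (h.symm.trans h1))).symm
  refine ⟨⟨μ', hμ1, lab', ?_, ?_, ?_⟩⟩
  · intro i a t ht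
    rw [hlab] at ht
    obtain ⟨e1, e2, e3, e4⟩ := F.some_ax _ _ _ ht
    obtain ⟨x', f1, -, -, f2, f3, f4⟩ := trans_low k i a.1 a.2.1 τ 0 _ e3
    rw [hjp] at f2 f3 f4
    have g1 := lt_of_mul_lt_mul_right f2 (Nat.zero_le _)
    have g2 := Nat.le_of_mul_le_mul_right f3 (by omega)
    have g3 : x' = t := Fin.ext (by omega)
    subst g3
    have g4 : a.2 = (0, q0) := Prod.ext (f4 rfl) e1
    obtain ⟨j, y1, y', h1, h2, h3, h4, h5⟩ := upp_gen k i _ _ e4
      (by rw [hjp]; nlinarith [Nat.zero_le (x'.val * (k + 2))])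
      (by rw [hjp]; exact Nat.mul_lt_mul_of_pos_right (by have := x'.2; omega) (by omega))
    rw [hjp] at h3 h4 h5
    have h6 := Nat.le_of_mul_le_mul_right h3 (by omega)
    have h7 := lt_of_mul_lt_mul_right h4 (Nat.zero_le _)
    have h8 : y' = x' := Fin.ext (by omega)
    subst h8
    have h9 := h5 rfl
    rw [hjt, hjc] at h1
    have h10 := iota_eta _ _ _ h1
    have h11 := hμ2 i _ _ h10
    rw [h11]
    refine ⟨g4, ?_, f1, h2⟩
    exact Prod.ext h9 e2
  · intro i a hnone
    have hno : ∀ t, F.lab (i + 1) (iota k 0 τ Q i a) ≠ some (junc t) := by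
      intro t ht
      rw [← hlab, hnone] at ht
      exact absurd ht (by simp)
    have C1 : ∃ (m : Fin (w (k + 1))) (x' : Fin (w k)), B false (i + 1) k a.1 x' ∧
        B true (i + 2) (k + 1) (F.mu (i + 1) (iota k 0 τ Q i a)).1 m ∧ cc k m = 0 ∧
        tt k m = τ ∧ x'.val * (k + 2) ≤ pp k m ∧ pp k m < (x'.val + 1) * (k + 2) := by
      cases hl : F.lab (i + 1) (iota k 0 τ Q i a) with
      | some m =>
        obtain ⟨-, -, e3, e4⟩ := F.some_ax _ _ _ hl
        obtain ⟨x', f1, u1, u2, f2, f3, -⟩ := trans_low k i a.1 a.2.1 τ 0 _ e3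
        refine ⟨m, x', f1, e4, u1, u2, f2.le, lt_of_le_of_ne f3 ?_⟩
        intro h
        apply hno x'
        rw [hl]
        congr 1
        apply ext3
        · rw [hjc, u1]
        · rw [hjt, u2]
        · rw [hjp, h]
      | none =>
        obtain ⟨m, e3, e4⟩ := F.none_ax _ _ hl
        obtain ⟨x', f1, u1, u2, f2, f3, -⟩ := trans_low k i a.1 a.2.1 τ 0 _ e3
        have hp : pp k m + 1 < ell k := by
          rcases Nat.lt_or_ge (pp k m + 1) (ell k) with h | h
          · exact h
          · exfalso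
            have h1 := pp_lt k m
            have h2 := succ_b k m (by omega)
            omega
        obtain ⟨v1, v2, v3⟩ := succ_a k m hp
        refine ⟨m, x', f1, e4, v1.symm.trans u1, v2.symm.trans u2, by omega, by omega⟩
    obtain ⟨m, x', f1, e4, u1, u2, p1, p2⟩ := C1
    rcases upp_cases k i _ m x' e4 p1 p2 with h0 | ⟨j, y1, y', h1, h2, h3⟩
    · -- leaving element
      subst h0
      rw [Fin.val_zero] at p2
      have hleave : ∀ b, F.mu (i + 1) (iota k 0 τ Q i a) ≠ iota k 0 τ Q i b := by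
        intro b hb
        rw [hb] at e4
        obtain ⟨y', -, -, -, q1, -, -⟩ := trans_upp k i b.1 b.2.1 τ 0 _ e4
        nlinarith [Nat.zero_le (y'.val * (k + 2))]
      have hent := hμ3 i a hleave
      obtain ⟨a2, ha2⟩ := (Finite.injective_iff_surjective.mp (F.inj (i + 1)))
        (iota k 0 τ Q i (μ' i a))
      have hnr : ∀ a', a2 ≠ iota k 0 τ Q i a' := by
        intro a' h
        rw [h] at ha2
        exact hent a' ha2
      have C2 : ∃ y' : Fin (w k), B true (i + 1) k (μ' i a).1 y' ∧ w k ≤ y'.val + 1 := by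
        cases hl : F.lab (i + 1) a2 with
        | some m =>
          obtain ⟨-, -, e3, e4⟩ := F.some_ax _ _ _ hl
          rw [ha2] at e4
          obtain ⟨y', g1, u1, u2, q1, q2, -⟩ := trans_upp k i _ _ τ 0 _ e4
          refine ⟨y', g1, ?_⟩
          rcases low_cases k i _ m e3 (by nlinarith [Nat.zero_le (y'.val * (k + 2))])
            with r | ⟨j, y1, r⟩
          · have := lt_of_mul_lt_mul_right (lt_trans r q2) (Nat.zero_le _)
            omega
          · exfalso
            rw [u1, u2] at r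
            exact hnr _ (iota_eta _ _ _ r)
        | none =>
          obtain ⟨m, e3, e4⟩ := F.none_ax _ _ hl
          rw [ha2] at e4
          obtain ⟨y', g1, u1, u2, q1, q2, -⟩ := trans_upp k i _ _ τ 0 _ e4
          refine ⟨y', g1, ?_⟩
          have hp : pp k m + 1 < ell k := by
            have h5 : (y'.val + 2) * (k + 2) ≤ (w k + 1) * (k + 2) :=
              Nat.mul_le_mul_right _ (by have := y'.2; omega)
            rw [ell_eq]; omega
          obtain ⟨v1, v2, v3⟩ := succ_a k m hp
          rcases low_cases k i _ (m + 1) e3 (by omega) with r | ⟨j, y1, r⟩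
          · have := lt_of_mul_lt_mul_right (lt_of_lt_of_le r (by omega : _ ≤ (y'.val + 2) * (k + 2)))
              (Nat.zero_le _)
            omega
          · exfalso
            rw [v1, v2, u1, u2] at r
            exact hnr _ (iota_eta _ _ _ r)
      obtain ⟨y', g1, g2⟩ := C2
      refine ⟨y', ?_, g1⟩
      rw [last_add_one k y' g2]
      exact f1
    · rw [u1, u2] at h1
      have h10 := iota_eta _ _ _ h1
      have h11 := hμ2 i _ _ h10
      refine ⟨y', ?_, ?_⟩
      · rw [← h3]; exact f1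
      · rw [h11]; exact h2
  · intro t
    obtain ⟨i, a, ha⟩ := F.cover (junc t)
    match i, a, ha with
    | 0, a, ha => exact absurd ha (hτ (t.val + 1) (by have := t.2; omega) a)
    | i + 1, a, ha =>
      obtain ⟨-, -, e3, -⟩ := F.some_ax _ _ _ ha
      obtain ⟨j, y1, y', h1, -, -, -, -⟩ := low_gen k i _ _ e3
        (by rw [hjp]; positivity)
        (by rw [hjp]; exact Nat.mul_le_mul_right _ (by have := t.2; omega))
      rw [hjt, hjc] at h1
      have h10 := iota_eta _ _ _ h1
      refine ⟨i, (y1, (j, a.2)), ?_⟩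
      rw [hlab, ← h10]
      exact ha

theorem no_fam : ∀ (k : ℕ) (Q : Type) [Fintype Q] (q0 : Q), Fam k Q q0 → False
  | 0, Q, _, q0, F => by
      obtain ⟨i, a, -⟩ := F.cover 0
      exact (a.1 : Empty).elim
  | k + 1, Q, _, q0, F => by
      obtain ⟨F'⟩ := fam_step F
      exact no_fam k _ _ F'

/-! ### The one-sided comparability relation -/

lemma isEmpty_L : ∀ (i k : ℕ), k < i → L i k → False
  | 0, k, h, _ => absurd h (Nat.not_lt_zero k)
  | _ + 1, 0, _, x => (x : Empty).elim
  | i + 1, k + 1, h, x => isEmpty_L i k (Nat.lt_of_succ_lt_succ h) x.2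

lemma rel_le (s : Bool) : ∀ (j i k : ℕ) (x : L i k) (y : L j k), Rel s j i k x y → j ≤ i
  | 0, _, _, _, _, _ => Nat.zero_le _
  | _ + 1, 0, _, _, _, h => False.elim h
  | _ + 1, _ + 1, 0, _, _, h => False.elim h
  | j + 1, i + 1, k + 1, x, y, h => Nat.succ_le_succ (rel_le s j i k x.2 y.2 h.2)

lemma rel_refl (s : Bool) : ∀ (i k : ℕ) (x : L i k), Rel s i i k x x
  | 0, _, x => (rfl : x = x)
  | _ + 1, 0, x => (x : Empty).elim
  | i + 1, k + 1, x => ⟨rfl, rel_refl s i k x.2⟩

lemma rel_eq (s : Bool) : ∀ (i k : ℕ) (x y : L i k), Rel s i i k x y → x = y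
  | 0, _, _, _, h => h
  | _ + 1, 0, x, _, _ => (x : Empty).elim
  | i + 1, k + 1, x, y, h => Prod.ext h.1 (rel_eq s i k x.2 y.2 h.2)

lemma rel_trans (s : Bool) : ∀ (l j i k : ℕ) (x : L i k) (y : L j k) (z : L l k),
    Rel s j i k x y → Rel s l j k y z → Rel s l i k x z
  | 0, 0, _, _, _, y, z, h, g => by
      have g' : y = z := g
      rw [← g']; exact h
  | _ + 1, 0, _, _, _, _, _, _, g => False.elim g
  | _, _ + 1, 0, _, _, _, _, h, _ => False.elim h
  | _, _ + 1, _ + 1, 0, _, _, _, h, _ => False.elim h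
  | 0, j + 1, i + 1, k + 1, x, y, z, h, g => by
      obtain ⟨m', g1, g2⟩ := g
      refine ⟨m', rel_trans s 0 j i k x.2 y.2 m' h.2 g1, ?_⟩
      rw [h.1]; exact g2
  | l + 1, j + 1, i + 1, k + 1, x, y, z, h, g =>
      ⟨h.1.trans g.1, rel_trans s l j i k x.2 y.2 z.2 h.2 g.2⟩

lemma rel_interp (s : Bool) : ∀ (l j i k : ℕ) (x : L i k) (z : L l k),
    Rel s l i k x z → l ≤ j → j ≤ i → ∃ y : L j k, Rel s j i k x y ∧ Rel s l j k y z
  | 0, 0, _, _, _, z, h, _, _ => ⟨z, h, rel_refl s 0 _ z⟩
  | _, _ + 1, 0, _, _, _, _, _, h2 => absurd h2 (by omega)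
  | _, _ + 1, _ + 1, 0, x, _, _, _, _ => (x : Empty).elim
  | _ + 1, 0, _, _, _, _, _, h1, _ => absurd h1 (by omega)
  | 0, j + 1, i + 1, k + 1, x, z, h, _, h2 => by
      obtain ⟨m', g1, g2⟩ := h
      obtain ⟨y', e1, e2⟩ := rel_interp s 0 j i k x.2 m' g1 (Nat.zero_le _) (by omega)
      exact ⟨(x.1, y'), ⟨rfl, e1⟩, ⟨m', e2, g2⟩⟩
  | l + 1, j + 1, i + 1, k + 1, x, z, h, h1, h2 => by
      obtain ⟨y', e1, e2⟩ := rel_interp s l j i k x.2 z.2 h.2 (by omega) (by omega)
      exact ⟨(x.1, y'), ⟨rfl, e1⟩, ⟨h.1, e2⟩⟩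

/-! ### Regular transport between consecutive levels -/

lemma blk_le (s : Bool) (k : ℕ) (b : Option (Fin (w k))) (x : Fin (w k)) : blk s k b x ≤ w k := by
  have := x.2
  cases s <;> cases b <;> simp only [blk] <;> omega

lemma node_exists (s : Bool) (k : ℕ) (c : Fin (w k)) (t : ℕ) (ht : t ≤ w k) :
    ∃ (b : Option (Fin (w k))) (x : Fin (w k)), b.getD x = c ∧ blk s k b x = t := by
  cases s with
  | false =>
    rcases Nat.lt_or_ge t (w k) with h | h
    · exact ⟨some c, ⟨t, h⟩, rfl, rfl⟩
    · exact ⟨none, c, rfl, by simp only [blk]; omega⟩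
  | true =>
    rcases Nat.eq_zero_or_pos t with h | h
    · exact ⟨none, c, rfl, by simp only [blk]; omega⟩
    · refine ⟨some c, ⟨t - 1, by omega⟩, rfl, ?_⟩
      change t - 1 + 1 = t
      omega

/-- position of the hub -/
def hubpos (s : Bool) (k : ℕ) : ℕ := if s then (w k + 1) * (k + 2) else 0

/-- position of the junction of block `t` -/
def jpos (s : Bool) (k t : ℕ) : ℕ := if s then t * (k + 2) else (t + 1) * (k + 2)

/-- the transport map -/
def FF (s : Bool) (k : ℕ) (y : (H k × Fin (w k)) × Fin (k + 2)) : Fin (w (k + 1)) × Fin (k + 1) :=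
  match y with
  | (((j, none), x), a) => (enc k x a (hubpos s k), j)
  | (((j, some (τ, b)), x), a) =>
      if h : a.val < k + 1 then
        if j = 0 then (enc k (b.getD x) τ (jpos s k (blk s k b x)), ⟨a.val, h⟩)
        else (enc k (b.getD x) τ (blk s k b x * (k + 2) + a.val + 1), j)
      else (enc k (b.getD x) τ (blk s k b x * (k + 2) + j.val + 1), 0)

lemma pos_bound (k t q : ℕ) (ht : t ≤ w k) (hq : q < k + 1) :
    t * (k + 2) + q + 1 < (t + 1) * (k + 2) ∧ (t + 1) * (k + 2) < ell k := by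
  constructor
  · rw [Nat.add_mul]; omega
  · rw [ell_eq]
    exact Nat.lt_succ_of_le (Nat.mul_le_mul_right _ (by omega))

lemma R_internal (s : Bool) (k : ℕ) (j : Fin (k + 1)) (τ : Fin (k + 2)) (b : Option (Fin (w k)))
    (x : Fin (w k)) (q : ℕ) (hq : q < k + 1) :
    R s k (j, some (τ, b)) x (enc k (b.getD x) τ (blk s k b x * (k + 2) + q + 1)) := by
  obtain ⟨h1, h2⟩ := pos_bound k _ q (blk_le s k b x) hq
  have hp := pp_enc k (b.getD x) τ _ (lt_trans h1 h2)
  cases s with
  | false =>
    refine ⟨cc_enc _ _ _ _, tt_enc _ _ _ _, ?_, ?_, ?_⟩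
    · rw [hp]; omega
    · rw [hp]; omega
    · rw [hp]; omega
  | true =>
    refine ⟨cc_enc _ _ _ _, tt_enc _ _ _ _, ?_, ?_, ?_⟩
    · rw [hp]; omega
    · rw [hp]; omega
    · rw [hp]; omega

lemma R_junc (s : Bool) (k : ℕ) (τ : Fin (k + 2)) (b : Option (Fin (w k))) (x : Fin (w k)) :
    R s k (0, some (τ, b)) x (enc k (b.getD x) τ (jpos s k (blk s k b x))) := by
  obtain ⟨h1, h2⟩ := pos_bound k _ 0 (blk_le s k b x) (Nat.succ_pos _)
  cases s with
  | false =>
    have hp := pp_enc k (b.getD x) τ _ h2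
    refine ⟨cc_enc _ _ _ _, tt_enc _ _ _ _, ?_, ?_, fun _ => rfl⟩
    · change _ < pp k (enc k (b.getD x) τ ((blk false k b x + 1) * (k + 2)))
      rw [hp]; omega
    · change pp k (enc k (b.getD x) τ ((blk false k b x + 1) * (k + 2))) ≤ _
      rw [hp]
  | true =>
    have hp := pp_enc k (b.getD x) τ (blk true k b x * (k + 2)) (by omega)
    refine ⟨cc_enc _ _ _ _, tt_enc _ _ _ _, ?_, ?_, fun _ => rfl⟩
    · change _ ≤ pp k (enc k (b.getD x) τ (blk true k b x * (k + 2)))
      rw [hp]
    · change pp k (enc k (b.getD x) τ (blk true k b x * (k + 2))) < _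
      rw [hp]; omega

lemma R_hub (s : Bool) (k : ℕ) (j : Fin (k + 1)) (x : Fin (w k)) (a : Fin (k + 2)) :
    R s k (j, none) x (enc k x a (hubpos s k)) := by
  cases s with
  | false => exact ⟨cc_enc _ _ _ _, pp_enc _ _ _ _ (ell_pos k)⟩
  | true => exact ⟨cc_enc _ _ _ _, pp_enc _ _ _ _ (Nat.lt_succ_self _)⟩

lemma FF_R (s : Bool) (k : ℕ) (y : (H k × Fin (w k)) × Fin (k + 2)) :
    R s k y.1.1 y.1.2 (FF s k y).1 := by
  match y with
  | (((j, none), x), a) => exact R_hub s k j x a
  | (((j, some (τ, b)), x), a) =>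
    by_cases h : a.val < k + 1
    · by_cases hj : j = 0
      · subst hj
        simp only [FF, dif_pos h, if_true]
        exact R_junc s k τ b x
      · simp only [FF, dif_pos h, if_neg hj]
        exact R_internal s k j τ b x a.val h
    · simp only [FF, dif_neg h]
      exact R_internal s k j τ b x j.val j.2

lemma enc_eta (k : ℕ) (m : Fin (w (k + 1))) (p : ℕ) (hp : pp k m = p) :
    enc k (cc k m) (tt k m) p = m := by
  apply ext3
  · rw [cc_enc]
  · rw [tt_enc]
  · rw [pp_enc, hp]
    rw [← hp]; exact pp_lt k m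

lemma pos_cases (s : Bool) (k p : ℕ) (hp : p < ell k) (hh : p ≠ hubpos s k) :
    ∃ t, t ≤ w k ∧ (p = jpos s k t ∨ ∃ q, q < k + 1 ∧ p = t * (k + 2) + q + 1) := by
  rw [ell_eq] at hp
  have h1 := Nat.div_add_mod p (k + 2)
  have h2 : p % (k + 2) < k + 2 := Nat.mod_lt p (Nat.succ_pos (k + 1))
  generalize p / (k + 2) = t at h1
  generalize p % (k + 2) = r at h1 h2
  by_cases hr0 : r = 0
  · have h3 : p = t * (k + 2) := by rw [← h1, hr0]; ring
    cases s with
    | false =>
      have h4 : t ≠ 0 := by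
        intro h5
        apply hh
        rw [h3, h5]
        simp [hubpos]
      have h6 : t * (k + 2) < (w k + 2) * (k + 2) := by
        rw [← h3]
        have : (w k + 2) * (k + 2) = (w k + 1) * (k + 2) + (k + 2) := by ring
        omega
      have h7 := lt_of_mul_lt_mul_right h6 (Nat.zero_le _)
      refine ⟨t - 1, by omega, Or.inl ?_⟩
      simp only [jpos]
      have h8 : t - 1 + 1 = t := by omega
      simp only [h8]
      simpa using h3
    | true =>
      have h6 : t * (k + 2) < (w k + 1) * (k + 2) := by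
        rw [← h3]
        have h9 : p ≠ (w k + 1) * (k + 2) := by
          intro h10; apply hh; rw [h10]; simp [hubpos]
        omega
      have h7 := lt_of_mul_lt_mul_right h6 (Nat.zero_le _)
      exact ⟨t, by omega, Or.inl (by simpa [jpos] using h3)⟩
  · have h6 : t * (k + 2) < (w k + 1) * (k + 2) := by
      have : t * (k + 2) = (k + 2) * t := by ring
      omega
    have h7 := lt_of_mul_lt_mul_right h6 (Nat.zero_le _)
    refine ⟨t, by omega, Or.inr ⟨r - 1, by omega, ?_⟩⟩
    have : t * (k + 2) = (k + 2) * t := by ring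
    omega

lemma FF_surj (s : Bool) (k : ℕ) : Function.Surjective (FF s k) := by
  rintro ⟨m, e⟩
  by_cases hh : pp k m = hubpos s k
  · refine ⟨(((e, none), cc k m), tt k m), ?_⟩
    simp only [FF]
    rw [enc_eta k m _ hh]
  · obtain ⟨t, ht, h⟩ := pos_cases s k _ (pp_lt k m) hh
    obtain ⟨b, x, hb, hx⟩ := node_exists s k (cc k m) t ht
    rcases h with h | ⟨q, hq, h⟩
    · refine ⟨(((0, some (tt k m, b)), x), ⟨e.val, by omega⟩), ?_⟩
      simp only [FF, if_true]
      rw [dif_pos e.2, hb, hx, enc_eta k m _ h]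
    · by_cases he : e = 0
      · refine ⟨(((⟨q, hq⟩, some (tt k m, b)), x), ⟨k + 1, by omega⟩), ?_⟩
        simp only [FF]
        rw [dif_neg (lt_irrefl _), hb, hx, enc_eta k m _ h, he]
      · refine ⟨(((e, some (tt k m, b)), x), ⟨q, by omega⟩), ?_⟩
        simp only [FF]
        rw [dif_pos hq, if_neg he, hb, hx, enc_eta k m _ h]

lemma FF_card (k : ℕ) : Fintype.card ((H k × Fin (w k)) × Fin (k + 2)) =
    Fintype.card (Fin (w (k + 1)) × Fin (k + 1)) := by
  simp only [Fintype.card_prod, Fintype.card_fin, Fintype.card_option]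
  simp only [w]
  ring

lemma FF_bij (s : Bool) (k : ℕ) : Function.Bijective (FF s k) :=
  (Fintype.bijective_iff_surjective_and_card _).2 ⟨FF_surj s k, FF_card k⟩

theorem bal (s : Bool) : ∀ (i k d : ℕ), i + d = k →
    ∃ Θ : L (i + 1) k × Fin (d + 1) ≃ L i k × Fin d, ∀ a, Rel s i (i + 1) k a.1 (Θ a).1
  | 0, 0, d, h => by
      have h0 : d = 0 := by omega
      subst h0
      have : IsEmpty (L (0 + 1) 0 × Fin (0 + 1)) := ⟨fun a => (a.1 : Empty).elim⟩
      have : IsEmpty (L 0 0 × Fin 0) := ⟨fun a => a.2.elim0⟩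
      exact ⟨Equiv.equivOfIsEmpty _ _, fun a => (a.1 : Empty).elim⟩
  | 0, k + 1, d, h => by
      have h0 : d = k + 1 := by omega
      subst h0
      refine ⟨(Equiv.ofBijective (FF s k) (FF_bij s k) :
        (H k × Fin (w k)) × Fin (k + 2) ≃ Fin (w (k + 1)) × Fin (k + 1)), ?_⟩
      intro a
      exact ⟨a.1.2, rfl, FF_R s k a⟩
  | i + 1, 0, d, h => absurd h (by omega)
  | i + 1, k + 1, d, h => by
      obtain ⟨Θ, hΘ⟩ := bal s i k d (by omega)
      let Ψ : (H k × L (i + 1) k) × Fin (d + 1) ≃ (H k × L i k) × Fin d :=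
        (Equiv.prodAssoc _ _ _).trans
          ((Equiv.prodCongr (Equiv.refl (H k)) Θ).trans (Equiv.prodAssoc _ _ _).symm)
      refine ⟨Ψ, ?_⟩
      intro a
      exact ⟨rfl, hΘ (a.1.2, a.2)⟩

lemma card_L : ∀ (i k d : ℕ), i + d = k → Fintype.card (L i k) * (k + 1) = w k * (d + 1)
  | 0, k, d, h => by
      have h0 : d = k := by omega
      subst h0
      have : Fintype.card (L 0 d) = w d := Fintype.card_fin _
      rw [this]
  | i + 1, k, d, h => by
      have ih := card_L i k (d + 1) (by omega)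
      obtain ⟨Θ, -⟩ := bal false i k (d + 1) (by omega)
      have h1 := Fintype.card_congr Θ
      rw [Fintype.card_prod, Fintype.card_prod, Fintype.card_fin, Fintype.card_fin] at h1
      have h2 : (d + 1 + 1) * (Fintype.card (L (i + 1) k) * (k + 1)) =
          (d + 1 + 1) * (w k * (d + 1)) := by
        calc (d + 1 + 1) * (Fintype.card (L (i + 1) k) * (k + 1))
            = (Fintype.card (L (i + 1) k) * (d + 1 + 1)) * (k + 1) := by ring
          _ = (Fintype.card (L i k) * (k + 1)) * (d + 1) := by rw [h1]; ring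
          _ = (d + 1 + 1) * (w k * (d + 1)) := by rw [ih]; ring
      exact Nat.eq_of_mul_eq_mul_left (by omega) h2

/-! ### Roots: an injection of each half into the middle level compatible with the order -/

/-- the root of a node of the new copy -/
def pm (s : Bool) (k : ℕ) (y : H k × Fin (w k)) : Fin (w (k + 1)) :=
  match y with
  | ((j, none), x) => enc k x ⟨j.val, by omega⟩ (hubpos s k)
  | ((j, some (τ, b)), x) => enc k (b.getD x) τ (blk s k b x * (k + 2) + j.val + 1)

lemma pm_R (s : Bool) (k : ℕ) (y : H k × Fin (w k)) : R s k y.1 y.2 (pm s k y) := by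
  match y with
  | ((j, none), x) => exact R_hub s k j x _
  | ((j, some (τ, b)), x) => exact R_internal s k j τ b x j.val j.2

lemma pm_block_ne_hub (s : Bool) (k : ℕ) (j : Fin (k + 1)) (τ : Fin (k + 2))
    (b : Option (Fin (w k))) (x : Fin (w k)) (c : Fin (w k)) (σ : Fin (k + 2)) :
    enc k (b.getD x) τ (blk s k b x * (k + 2) + j.val + 1) ≠ enc k c σ (hubpos s k) := by
  intro h
  obtain ⟨h1, h2⟩ := pos_bound k _ j.val (blk_le s k b x) j.2
  have h3 := congrArg (pp k) h
  have hub_lt : hubpos s k < ell k := by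
    cases s
    · exact ell_pos k
    · exact Nat.lt_succ_self _
  rw [pp_enc _ _ _ _ (lt_trans h1 h2), pp_enc _ _ _ _ hub_lt] at h3
  cases s with
  | false => simp [hubpos] at h3
  | true =>
    have h4 : (blk true k b x + 1) * (k + 2) ≤ (w k + 1) * (k + 2) :=
      Nat.mul_le_mul_right _ (by have := blk_le true k b x; omega)
    simp only [hubpos, if_true] at h3
    omega

lemma pm_inj (s : Bool) (k : ℕ) : Function.Injective (pm s k) := by
  intro y z h
  match y, z, h with
  | ((j, none), x), ((j', none), x'), h =>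
    simp only [pm] at h
    have h1 := congrArg (cc k) h
    have h2 := congrArg (tt k) h
    rw [cc_enc, cc_enc] at h1
    rw [tt_enc, tt_enc] at h2
    have h3 : j = j' := Fin.ext (Fin.mk.inj h2)
    rw [h1, h3]
  | ((j, none), x), ((j', some (τ', b')), x'), h =>
    exact absurd h.symm (pm_block_ne_hub s k j' τ' b' x' x _)
  | ((j, some (τ, b)), x), ((j', none), x'), h =>
    exact absurd h (pm_block_ne_hub s k j τ b x x' _)
  | ((j, some (τ, b)), x), ((j', some (τ', b')), x'), h =>
    have key : ∀ (j : Fin (k + 1)) (τ : Fin (k + 2)) (b : Option (Fin (w k))) (x : Fin (w k)),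
        FF s k (((j, some (τ, b)), x), ⟨k + 1, by omega⟩) = (pm s k ((j, some (τ, b)), x), 0) := by
      intro j τ b x
      simp only [FF, pm]
      rw [dif_neg (lt_irrefl _)]
    have h1 : FF s k (((j, some (τ, b)), x), ⟨k + 1, by omega⟩) =
        FF s k (((j', some (τ', b')), x'), ⟨k + 1, by omega⟩) := by rw [key, key, h]
    exact congrArg Prod.fst ((FF_bij s k).1 h1)

/-- root of a node -/
def root (s : Bool) : ∀ (i k : ℕ), L i k → Fin (w k)
  | 0, _, x => x
  | _ + 1, 0, _ => 0
  | i + 1, k + 1, x => pm s k (x.1, root s i k x.2)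

lemma B_root (s : Bool) : ∀ (i k : ℕ) (x : L i k), B s i k x (root s i k x)
  | 0, _, x => (rfl : x = x)
  | _ + 1, 0, x => (x : Empty).elim
  | i + 1, k + 1, x => ⟨root s i k x.2, B_root s i k x.2, pm_R s k (x.1, root s i k x.2)⟩

lemma root_comp (s : Bool) : ∀ (i j k : ℕ) (x : L i k) (y : L j k), root s i k x = root s j k y →
    Rel s j i k x y ∨ Rel s i j k y x
  | i, 0, k, x, y, h => by
      left
      change B s i k x y
      have h1 : root s i k x = y := h
      rw [← h1]
      exact B_root s i k x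
  | 0, j + 1, k, x, y, h => by
      right
      change B s (j + 1) k y x
      have h1 : x = root s (j + 1) k y := h
      rw [h1]
      exact B_root s (j + 1) k y
  | _ + 1, _ + 1, 0, x, _, _ => (x : Empty).elim
  | i + 1, j + 1, k + 1, x, y, h => by
      have h1 := pm_inj s k h
      have h2 : x.1 = y.1 := congrArg Prod.fst h1
      have h3 : root s i k x.2 = root s j k y.2 := congrArg Prod.snd h1
      rcases root_comp s i j k x.2 y.2 h3 with h4 | h4
      · exact Or.inl ⟨h2, h4⟩
      · exact Or.inr ⟨h2.symm, h4⟩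

/-! ### The poset -/

/-- the `N`-th poset: a lower half (with the middle level) and an upper half -/
def PN (N : ℕ) : Type := (Σ i : Fin (N + 1), L i N) ⊕ (Σ i : Fin N, L (i + 1) N)

instance (N : ℕ) : Fintype (PN N) :=
  inferInstanceAs (Fintype ((Σ i : Fin (N + 1), L i N) ⊕ (Σ i : Fin N, L (i + 1) N)))

instance (N : ℕ) : DecidableEq (PN N) :=
  inferInstanceAs (DecidableEq ((Σ i : Fin (N + 1), L i N) ⊕ (Σ i : Fin N, L (i + 1) N)))

/-- the order -/
def leP (N : ℕ) : PN N → PN N → Prop
  | .inl a, .inl b => Rel false b.1 a.1 N a.2 b.2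
  | .inl a, .inr b => ∃ m, B false a.1 N a.2 m ∧ B true (b.1 + 1) N b.2 m
  | .inr _, .inl _ => False
  | .inr a, .inr b => Rel true (a.1 + 1) (b.1 + 1) N b.2 a.2

lemma rel_zero_right (s : Bool) (k : ℕ) (x m : Fin (w k)) : B s 0 k x m ↔ x = m := Iff.rfl

instance (N : ℕ) : PartialOrder (PN N) where
  le := leP N
  le_refl := by
    rintro (a | a)
    · exact rel_refl false _ _ _
    · exact rel_refl true _ _ _
  le_trans := by
    rintro (a | a) (b | b) (c | c) h g
    · exact rel_trans false _ _ _ _ _ _ _ h g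
    · obtain ⟨m, g1, g2⟩ := g
      exact ⟨m, rel_trans false 0 _ _ _ _ _ m h g1, g2⟩
    · exact False.elim g
    · obtain ⟨m, h1, h2⟩ := h
      exact ⟨m, h1, rel_trans true 0 _ _ _ _ _ m g h2⟩
    · exact False.elim h
    · exact False.elim h
    · exact False.elim g
    · exact rel_trans true _ _ _ _ _ _ _ g h
  le_antisymm := by
    rintro (⟨i, x⟩ | ⟨i, x⟩) (⟨j, y⟩ | ⟨j, y⟩) h g
    · have h1 := rel_le _ _ _ _ _ _ h
      have h2 := rel_le _ _ _ _ _ _ g
      have h3 : i = j := Fin.ext (le_antisymm h2 h1)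
      subst h3
      have h4 : x = y := rel_eq _ _ _ _ _ h
      rw [h4]
    · exact False.elim g
    · exact False.elim h
    · have h1 := rel_le _ _ _ _ _ _ h
      have h2 := rel_le _ _ _ _ _ _ g
      have h3 : i = j := Fin.ext (by
        have h1' : i.val + 1 ≤ j.val + 1 := h1
        have h2' : j.val + 1 ≤ i.val + 1 := h2
        omega)
      subst h3
      have h4 : y = x := rel_eq _ _ _ _ _ h
      rw [h4]

/-- the rank function -/
def rkP (N : ℕ) : PN N → ℕ
  | .inl a => N - a.1
  | .inr a => N + 1 + a.1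

lemma rkP_le (N : ℕ) (z : PN N) : rkP N z ≤ 2 * N := by
  match z with
  | .inl a => simp only [rkP]; omega
  | .inr a =>
    have := a.1.2
    simp only [rkP]; omega

lemma rkP_lt {N : ℕ} {z z' : PN N} (h : z < z') : rkP N z < rkP N z' := by
  have hle : leP N z z' := h.le
  have hne : z ≠ z' := h.ne
  match z, z', hle, hne with
  | .inl ⟨i, x⟩, .inl ⟨j, y⟩, hle, hne =>
    have h1 : j.val ≤ i.val := rel_le _ _ _ _ _ _ hle
    have h2 : j ≠ i := by
      intro h3
      subst h3
      apply hne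
      have h4 : x = y := rel_eq _ _ _ _ _ hle
      rw [h4]
    have h3 : j.val ≠ i.val := fun h => h2 (Fin.ext h)
    have := i.2
    simp only [rkP]; omega
  | .inl ⟨i, x⟩, .inr ⟨j, y⟩, _, _ => simp only [rkP]; omega
  | .inr _, .inl _, hle, _ => exact False.elim hle
  | .inr ⟨i, x⟩, .inr ⟨j, y⟩, hle, hne =>
    have h1 : i.val + 1 ≤ j.val + 1 := rel_le _ _ _ _ _ _ hle
    have h2 : j ≠ i := by
      intro h3
      subst h3
      apply hne
      have h4 : y = x := rel_eq _ _ _ _ _ hle
      rw [h4]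
    have h3 : j.val ≠ i.val := fun h => h2 (Fin.ext h)
    simp only [rkP]; omega

/-- representation of the two halves; both contain the middle level -/
def emb (N : ℕ) : (s : Bool) → (i : ℕ) → i ≤ N → L i N → PN N
  | false, i, h, x => .inl ⟨⟨i, Nat.lt_succ_of_le h⟩, x⟩
  | true, 0, _, x => .inl ⟨⟨0, Nat.succ_pos N⟩, x⟩
  | true, i + 1, h, x => .inr ⟨⟨i, h⟩, x⟩

lemma rk_emb_false (N i : ℕ) (h : i ≤ N) (x : L i N) : rkP N (emb N false i h x) = N - i := rfl

lemma rk_emb_true (N : ℕ) : ∀ (i : ℕ) (h : i ≤ N) (x : L i N), rkP N (emb N true i h x) = N + i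
  | 0, _, _ => rfl
  | i + 1, _, _ => by
      change N + 1 + i = N + (i + 1)
      omega

lemma emb_inj (N : ℕ) : ∀ (s : Bool) (i : ℕ) (h : i ≤ N), Function.Injective (emb N s i h)
  | false, i, h => by
      intro x y hxy
      have h1 := Sum.inl.inj hxy
      exact eq_of_heq (Sigma.mk.inj h1).2
  | true, 0, h => by
      intro x y hxy
      have h1 := Sum.inl.inj hxy
      exact eq_of_heq (Sigma.mk.inj h1).2
  | true, i + 1, h => by
      intro x y hxy
      have h1 := Sum.inr.inj hxy
      exact eq_of_heq (Sigma.mk.inj h1).2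

lemma emb_false_surj (N i : ℕ) (h : i ≤ N) (z : PN N) (hz : rkP N z = N - i) :
    ∃ x, z = emb N false i h x := by
  match z, hz with
  | .inl ⟨⟨j, hj⟩, x⟩, hz =>
    have h1 : N - j = N - i := hz
    have h2 : j = i := by omega
    subst h2
    exact ⟨x, rfl⟩
  | .inr ⟨⟨j, hj⟩, x⟩, hz =>
    have h1 : N + 1 + j = N - i := hz
    omega

lemma emb_true_surj (N : ℕ) : ∀ (i : ℕ) (h : i ≤ N) (z : PN N), rkP N z = N + i →
    ∃ x, z = emb N true i h x
  | 0, h, .inl ⟨⟨j, hj⟩, x⟩, hz => by
      have h1 : N - j = N + 0 := hz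
      have h2 : j = 0 := by omega
      subst h2
      exact ⟨x, rfl⟩
  | i + 1, h, .inl ⟨⟨j, hj⟩, x⟩, hz => by
      have h1 : N - j = N + (i + 1) := hz
      omega
  | 0, h, .inr ⟨⟨j, hj⟩, x⟩, hz => by
      have h1 : N + 1 + j = N + 0 := hz
      omega
  | i + 1, h, .inr ⟨⟨j, hj⟩, x⟩, hz => by
      have h1 : N + 1 + j = N + (i + 1) := hz
      have h2 : j = i := by omega
      subst h2
      exact ⟨x, rfl⟩

lemma le_false (N i j : ℕ) (hi : i ≤ N) (hj : j ≤ N) (x : L i N) (y : L j N) :
    emb N false i hi x ≤ emb N false j hj y ↔ Rel false j i N x y := Iff.rfl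

lemma rel_zero_zero (k : ℕ) (x y : L 0 k) : Rel false 0 0 k y x ↔ Rel true 0 0 k x y := by
  change (y = x) ↔ (x = y)
  exact eq_comm

lemma le_true (N : ℕ) : ∀ (i j : ℕ) (hi : i ≤ N) (hj : j ≤ N) (x : L i N) (y : L j N),
    Rel true j i N x y → emb N true j hj y ≤ emb N true i hi x
  | 0, 0, _, _, x, y, h => by
      change Rel false 0 0 N y x
      rw [rel_zero_zero]; exact h
  | i + 1, 0, _, _, x, y, h => ⟨y, (rfl : y = y), h⟩
  | 0, j + 1, _, _, _, _, h => absurd (rel_le _ _ _ _ _ _ h) (by omega)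
  | i + 1, j + 1, _, _, x, y, h => h

lemma le_mid (N : ℕ) : ∀ (i j : ℕ) (hi : i ≤ N) (hj : j ≤ N) (x : L i N) (y : L j N),
    emb N false i hi x ≤ emb N true j hj y ↔ ∃ m, B false i N x m ∧ B true j N y m
  | i, 0, _, _, x, y => by
      change B false i N x y ↔ _
      constructor
      · intro h
        exact ⟨y, h, (rfl : y = y)⟩
      · rintro ⟨m, h1, h2⟩
        have h3 : y = m := h2
        rw [h3]; exact h1
  | i, j + 1, _, _, x, y => Iff.rfl

/-! ### Every admissible poset has a partition into rank-symmetric chains -/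

section Hall

variable {P : Type} [PartialOrder P] [Fintype P] [DecidableEq P]

omit [DecidableEq P] in
open Classical in
lemma nm_iter {n : ℕ} {rk : P → ℕ} (hA : Admissible n rk) (i : ℕ) (X : Finset P)
    (hX : X ⊆ level rk i) (hne : X.Nonempty) : ∀ d, i + d ≤ n →
    (X.card : ℚ) / (level rk i).card ≤
      (((level rk (i + d)).filter (fun y => ∃ x ∈ X, x ≤ y)).card : ℚ) / (level rk (i + d)).card
  | 0, _ => by
      have h1 : X ⊆ (level rk (i + 0)).filter (fun y => ∃ x ∈ X, x ≤ y) := by
        intro x hx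
        rw [Finset.mem_filter]
        exact ⟨hX hx, x, hx, le_rfl⟩
      have h2 : (X.card : ℚ) ≤ (((level rk (i + 0)).filter (fun y => ∃ x ∈ X, x ≤ y)).card : ℚ) := by
        exact_mod_cast Finset.card_le_card h1
      exact div_le_div_of_nonneg_right h2 (Nat.cast_nonneg _)
  | d + 1, hd => by
      have ih := nm_iter hA i X hX hne d (by omega)
      have hpos : (0 : ℚ) < (X.card : ℚ) / (level rk i).card := by
        apply div_pos
        · exact_mod_cast hne.card_pos
        · exact_mod_cast (hA.nonempty i (by omega)).card_pos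
      set Y := (level rk (i + d)).filter (fun y => ∃ x ∈ X, x ≤ y) with hY
      have hYne : Y.Nonempty := by
        rw [Finset.nonempty_iff_ne_empty]
        intro h
        rw [h] at ih
        simp only [Finset.card_empty, Nat.cast_zero, zero_div] at ih
        linarith
      have h1 := hA.matching (i + d) (by omega) Y (Finset.filter_subset _ _) hYne
      have h2 : upN rk (i + d) Y ⊆
          (level rk (i + (d + 1))).filter (fun y => ∃ x ∈ X, x ≤ y) := by
        intro z hz
        rw [upN, Finset.mem_filter] at hz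
        obtain ⟨hz1, y, hy, hyz⟩ := hz
        rw [hY, Finset.mem_filter] at hy
        obtain ⟨-, x, hx, hxy⟩ := hy
        rw [Finset.mem_filter]
        exact ⟨hz1, x, hx, hxy.trans hyz.le⟩
      have h3 : ((upN rk (i + d) Y).card : ℚ) ≤
          (((level rk (i + (d + 1))).filter (fun y => ∃ x ∈ X, x ≤ y)).card : ℚ) := by
        exact_mod_cast Finset.card_le_card h2
      calc (X.card : ℚ) / (level rk i).card ≤ _ := ih
        _ ≤ _ := h1
        _ ≤ _ := div_le_div_of_nonneg_right h3 (Nat.cast_nonneg _)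

lemma level_matching {n : ℕ} {rk : P → ℕ} (hA : Admissible n rk) (i : ℕ) (hi : 2 * i ≤ n) :
    ∃ φ : {x // x ∈ level rk i} → P, Function.Injective φ ∧
      ∀ x, φ x ∈ level rk (n - i) ∧ x.1 ≤ φ x := by
  classical
  let t : {x // x ∈ level rk i} → Finset P := fun x => (level rk (n - i)).filter (fun y => x.1 ≤ y)
  have hall : ∀ s : Finset {x // x ∈ level rk i}, s.card ≤ (s.biUnion t).card := by
    intro s
    rcases s.eq_empty_or_nonempty with h0 | h0
    · rw [h0]; simp
    · set X : Finset P := s.map (Function.Embedding.subtype _) with hXdef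
      have hX : X ⊆ level rk i := by
        intro x hx
        rw [hXdef, Finset.mem_map] at hx
        obtain ⟨y, -, hy⟩ := hx
        rw [← hy]; exact y.2
      have hXne : X.Nonempty := by rw [hXdef]; exact h0.map
      have hXcard : X.card = s.card := Finset.card_map _
      have h1 := nm_iter hA i X hX hXne (n - i - i) (by omega)
      have h2 : i + (n - i - i) = n - i := by omega
      rw [h2, ← hA.symm i (by omega)] at h1
      have hpos : (0 : ℚ) < (level rk i).card := by
        exact_mod_cast (hA.nonempty i (by omega)).card_pos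
      have h3 := (div_le_div_iff_of_pos_right hpos).1 h1
      have h4 : (level rk (n - i)).filter (fun y => ∃ x ∈ X, x ≤ y) ⊆ s.biUnion t := by
        intro y hy
        rw [Finset.mem_filter] at hy
        obtain ⟨hy1, x, hx, hxy⟩ := hy
        rw [hXdef, Finset.mem_map] at hx
        obtain ⟨z, hz, hzx⟩ := hx
        rw [Finset.mem_biUnion]
        refine ⟨z, hz, ?_⟩
        rw [Finset.mem_filter]
        refine ⟨hy1, ?_⟩
        rw [← hzx] at hxy
        exact hxy
      have h5 : X.card ≤ ((level rk (n - i)).filter (fun y => ∃ x ∈ X, x ≤ y)).card := by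
        exact_mod_cast h3
      rw [← hXcard]
      exact h5.trans (Finset.card_le_card h4)
  obtain ⟨φ, h1, h2⟩ := (Finset.all_card_le_biUnion_card_iff_exists_injective t).1 hall
  exact ⟨φ, h1, fun x => Finset.mem_filter.1 (h2 x)⟩

lemma exists_partition {n : ℕ} {rk : P → ℕ} (hA : Admissible n rk) :
    ∃ π : Finpartition (univ : Finset P), ∀ C ∈ π.parts, RSChain n rk C := by
  classical
  have hm : ∀ i, ∃ φ : {x // x ∈ level rk i} → P, 2 * i ≤ n → Function.Injective φ ∧
      ∀ x, φ x ∈ level rk (n - i) ∧ x.1 ≤ φ x := by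
    intro i
    by_cases hi : 2 * i ≤ n
    · obtain ⟨φ, h⟩ := level_matching hA i hi
      exact ⟨φ, fun _ => h⟩
    · exact ⟨fun x => x.1, fun h => absurd h hi⟩
  choose φ hφ using hm
  let ψ : P → P := fun x => φ (rk x) ⟨x, by simp [level]⟩
  have hψ : ∀ x, 2 * rk x ≤ n → rk (ψ x) = n - rk x ∧ x ≤ ψ x := by
    intro x hx
    obtain ⟨h1, h2⟩ := (hφ (rk x) hx).2 ⟨x, by simp [level]⟩
    exact ⟨(Finset.mem_filter.1 h1).2, h2⟩
  have hψinj : ∀ x y, 2 * rk x ≤ n → 2 * rk y ≤ n → ψ x = ψ y → x = y := by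
    intro x y hx hy h
    have h1 := (hψ x hx).1
    have h2 := (hψ y hy).1
    rw [h] at h1
    have h3 : rk x = rk y := by omega
    have key : ∀ (i : ℕ) (hi : 2 * i ≤ n) (x y : P) (hx : x ∈ level rk i) (hy : y ∈ level rk i),
        φ i ⟨x, hx⟩ = φ i ⟨y, hy⟩ → x = y := by
      intro i hi x y hx hy h
      exact congrArg Subtype.val ((hφ i hi).1 h)
    have h4 : ∀ (i : ℕ) (hi : i = rk x) (hx' : x ∈ level rk i), φ i ⟨x, hx'⟩ = ψ x := by
      intro i hi hx'
      subst hi
      rfl
    have hx' : x ∈ level rk (rk y) := by simp [level, h3]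
    have h5 : φ (rk y) ⟨x, hx'⟩ = φ (rk y) ⟨y, by simp [level]⟩ := by
      rw [h4 (rk y) h3.symm hx', h]
    exact key _ hy _ _ _ _ h5
  have hψsurj : ∀ y, n < 2 * rk y → ∃ x, 2 * rk x ≤ n ∧ ψ x = y := by
    intro y hy
    have hyn := hA.rank_le y
    have hsub : (level rk (n - rk y)).image ψ ⊆ level rk (rk y) := by
      intro z hz
      rw [Finset.mem_image] at hz
      obtain ⟨x, hx, hxz⟩ := hz
      have hx' : rk x = n - rk y := by simpa [level] using hx
      have h1 := (hψ x (by omega)).1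
      rw [hxz] at h1
      simp only [level, Finset.mem_filter, Finset.mem_univ, true_and]
      omega
    have hcard : ((level rk (n - rk y)).image ψ).card = (level rk (rk y)).card := by
      rw [Finset.card_image_of_injOn]
      · exact (hA.symm (rk y) hyn).symm
      · intro a ha b hb hab
        have ha' : rk a = n - rk y := by simpa [level] using ha
        have hb' : rk b = n - rk y := by simpa [level] using hb
        exact hψinj a b (by omega) (by omega) hab
    have heq := Finset.eq_of_subset_of_card_le hsub hcard.ge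
    have hy' : y ∈ level rk (rk y) := by simp [level]
    rw [← heq, Finset.mem_image] at hy'
    obtain ⟨x, hx, hxy⟩ := hy'
    have hx' : rk x = n - rk y := by simpa [level] using hx
    exact ⟨x, by omega, hxy⟩
  have hκ : ∀ y, ∃ x, 2 * rk x ≤ n ∧ ((2 * rk y ≤ n ∧ x = y) ∨ (n < 2 * rk y ∧ ψ x = y)) := by
    intro y
    rcases Nat.lt_or_ge n (2 * rk y) with h | h
    · obtain ⟨x, h1, h2⟩ := hψsurj y h
      exact ⟨x, h1, Or.inr ⟨h, h2⟩⟩
    · exact ⟨y, h, Or.inl ⟨h, rfl⟩⟩
  choose κ hκ1 hκ2 using hκ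
  have hκχ : ∀ u y, 2 * rk u ≤ n → (κ y = u ↔ y = u ∨ (2 * rk u < n ∧ y = ψ u)) := by
    intro u y hu
    constructor
    · intro h
      rcases hκ2 y with ⟨h1, h2⟩ | ⟨h1, h2⟩
      · left; rw [← h2, h]
      · right
        rw [h] at h2
        have h3 := (hψ u hu).1
        rw [h2] at h3
        exact ⟨by omega, h2.symm⟩
    · rintro (h | ⟨h1, h2⟩)
      · subst h
        rcases hκ2 y with ⟨_, h2⟩ | ⟨h1, _⟩
        · exact h2
        · omega
      · have h3 := (hψ u hu).1
        rcases hκ2 y with ⟨h4, _⟩ | ⟨_, h5⟩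
        · rw [h2] at h4; omega
        · apply hψinj _ _ (hκ1 y) hu
          rw [h5, h2]
  refine ⟨Finpartition.ofSetoid (Setoid.ker κ), ?_⟩
  intro C hC
  have hC' : ∃ a, C = univ.filter (fun b => κ b = κ a) := by
    obtain ⟨a, ha⟩ := (Finpartition.ofSetoid (Setoid.ker κ)).nonempty_of_mem_parts hC
    refine ⟨a, ?_⟩
    have h1 := (Finpartition.ofSetoid (Setoid.ker κ)).part_eq_of_mem hC ha
    rw [← h1]
    ext b
    rw [Finpartition.mem_part_ofSetoid_iff_rel]
    simp only [Finset.mem_filter, Finset.mem_univ, true_and]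
    rw [Setoid.ker_def]
    exact eq_comm
  obtain ⟨a, ha⟩ := hC'
  have hu := hκ1 a
  set u := κ a with hudef
  clear_value u
  rcases Nat.lt_or_ge (2 * rk u) n with h | h
  · have hCu : C = {u, ψ u} := by
      rw [ha]
      ext b
      rw [Finset.mem_filter, hκχ u b hu]
      simp [h]
    obtain ⟨h1, h2⟩ := hψ u hu
    rw [hCu]
    constructor
    · intro x hx y hy hne
      simp only [Finset.coe_insert, Finset.coe_singleton, Set.mem_insert_iff,
        Set.mem_singleton_iff] at hx hy
      rcases hx with rfl | rfl <;> rcases hy with rfl | rfl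
      · exact absurd rfl hne
      · exact Or.inl h2
      · exact Or.inr h2
      · exact absurd rfl hne
    · intro i hi
      have hne : u ≠ ψ u := by
        intro h3
        rw [← h3] at h1
        omega
      simp only [Finset.filter_insert, Finset.filter_singleton, h1]
      by_cases c1 : rk u = i
      · have c2 : ¬ n - rk u = i := by omega
        have c3 : ¬ rk u = n - i := by omega
        have c4 : n - rk u = n - i := by omega
        rw [if_pos c1, if_neg c2, if_neg c3, if_pos c4]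
        simp
      · by_cases c2 : n - rk u = i
        · have c3 : rk u = n - i := by omega
          have c4 : ¬ n - rk u = n - i := by omega
          rw [if_neg c1, if_pos c2, if_pos c3, if_neg c4]
          simp
        · have c3 : ¬ rk u = n - i := by omega
          have c4 : ¬ n - rk u = n - i := by omega
          rw [if_neg c1, if_neg c2, if_neg c3, if_neg c4]
  · have hCu : C = {u} := by
      rw [ha]
      ext b
      rw [Finset.mem_filter, hκχ u b hu]
      have : ¬ 2 * rk u < n := by omega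
      simp [this]
    rw [hCu]
    constructor
    · intro x hx y hy hne
      simp only [Finset.coe_singleton, Set.mem_singleton_iff] at hx hy
      exact absurd (hx.trans hy.symm) hne
    · intro i hi
      simp only [Finset.filter_singleton]
      by_cases c1 : rk u = i
      · have c3 : rk u = n - i := by omega
        rw [if_pos c1, if_pos c3]
      · have c3 : ¬ rk u = n - i := by omega
        rw [if_neg c1, if_neg c3]

end Hall

/-! ### `PN N` is admissible -/

lemma mem_level {P : Type} [Fintype P] (rk : P → ℕ) (i : ℕ) (x : P) :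
    x ∈ level rk i ↔ rk x = i := by simp [level]

lemma level_false (N i : ℕ) (h : i ≤ N) :
    level (rkP N) (N - i) = univ.image (emb N false i h) := by
  ext z
  rw [mem_level, Finset.mem_image]
  constructor
  · intro hz
    obtain ⟨x, hx⟩ := emb_false_surj N i h z hz
    exact ⟨x, Finset.mem_univ _, hx.symm⟩
  · rintro ⟨x, -, hx⟩
    rw [← hx, rk_emb_false]

lemma level_true (N i : ℕ) (h : i ≤ N) :
    level (rkP N) (N + i) = univ.image (emb N true i h) := by
  ext z
  rw [mem_level, Finset.mem_image]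
  constructor
  · intro hz
    obtain ⟨x, hx⟩ := emb_true_surj N i h z hz
    exact ⟨x, Finset.mem_univ _, hx.symm⟩
  · rintro ⟨x, -, hx⟩
    rw [← hx, rk_emb_true]

lemma card_level_false (N i : ℕ) (h : i ≤ N) :
    (level (rkP N) (N - i)).card = Fintype.card (L i N) := by
  rw [level_false N i h, Finset.card_image_of_injective _ (emb_inj N false i h), Finset.card_univ]

lemma card_level_true (N i : ℕ) (h : i ≤ N) :
    (level (rkP N) (N + i)).card = Fintype.card (L i N) := by
  rw [level_true N i h, Finset.card_image_of_injective _ (emb_inj N true i h), Finset.card_univ]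

lemma card_L_pos (i N : ℕ) (h : i ≤ N) : 0 < Fintype.card (L i N) := by
  have h1 := card_L i N (N - i) (by omega)
  have h2 := w_pos N
  by_contra h3
  have h4 : Fintype.card (L i N) = 0 := by omega
  rw [h4, Nat.zero_mul] at h1
  have : 0 < w N * (N - i + 1) := by positivity
  omega

lemma card_L_anti (i N : ℕ) (h : i + 1 ≤ N) : Fintype.card (L (i + 1) N) ≤ Fintype.card (L i N) := by
  have h1 := card_L i N (N - i) (by omega)
  have h2 := card_L (i + 1) N (N - (i + 1)) (by omega)
  have h3 : w N * (N - (i + 1) + 1) ≤ w N * (N - i + 1) := Nat.mul_le_mul_left _ (by omega)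
  rw [← h1, ← h2] at h3
  exact Nat.le_of_mul_le_mul_right h3 (by omega)

lemma le_of_rel_false {N i j : ℕ} (hi : i ≤ N) (hj : j ≤ N) {x : L i N} {y : L j N}
    (h : Rel false j i N x y) : emb N false i hi x ≤ emb N false j hj y := h

lemma lt_of_le_rk {N : ℕ} {z z' : PN N} (h : z ≤ z') (h' : rkP N z ≠ rkP N z') : z < z' :=
  lt_of_le_of_ne h (fun h2 => h' (by rw [h2]))

/-- transfer of a regular transport to the normalized matching inequality -/
lemma nm_transfer {P : Type} [PartialOrder P] [Fintype P] [DecidableEq P] {A B' : Type} [Fintype A]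
    [Fintype B'] (rk : P → ℕ) (r : ℕ) (e1 : A → P) (e2 : B' → P) (he1 : Function.Injective e1)
    (he2 : Function.Injective e2) (hl1 : level rk r = univ.image e1)
    (hl2 : level rk (r + 1) = univ.image e2) (p q : ℕ) (hp : 0 < p) (hq : 0 < q)
    (Θ : A × Fin p ≃ B' × Fin q) (hΘ : ∀ a, e1 a.1 < e2 (Θ a).1) (hA : 0 < Fintype.card A)
    (X : Finset P) (hX : X ⊆ level rk r) :
    (X.card : ℚ) / (level rk r).card ≤ ((upN rk r X).card : ℚ) / (level rk (r + 1)).card := by
  classical
  have hc1 : (level rk r).card = Fintype.card A := by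
    rw [hl1, Finset.card_image_of_injective _ he1, Finset.card_univ]
  have hc2 : (level rk (r + 1)).card = Fintype.card B' := by
    rw [hl2, Finset.card_image_of_injective _ he2, Finset.card_univ]
  have hcard : Fintype.card A * p = Fintype.card B' * q := by
    have := Fintype.card_congr Θ
    rwa [Fintype.card_prod, Fintype.card_prod, Fintype.card_fin, Fintype.card_fin] at this
  let X' : Finset A := univ.filter (fun a => e1 a ∈ X)
  let Y' : Finset B' := univ.filter (fun b => e2 b ∈ upN rk r X)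
  have hX' : X'.card = X.card := by
    rw [← Finset.card_image_of_injective X' he1]
    congr 1
    ext z
    simp only [X', Finset.mem_image, Finset.mem_filter, Finset.mem_univ, true_and]
    constructor
    · rintro ⟨a, ha, rfl⟩; exact ha
    · intro hz
      have := hX hz
      rw [hl1, Finset.mem_image] at this
      obtain ⟨a, -, ha⟩ := this
      exact ⟨a, by rw [ha]; exact hz, ha⟩
  have hY' : Y'.card ≤ (upN rk r X).card := by
    rw [← Finset.card_image_of_injective Y' he2]
    apply Finset.card_le_card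
    intro z hz
    simp only [Y', Finset.mem_image, Finset.mem_filter, Finset.mem_univ, true_and] at hz
    obtain ⟨b, hb, rfl⟩ := hz
    exact hb
  have hmain : X'.card * p ≤ Y'.card * q := by
    have h1 : ((X' ×ˢ (univ : Finset (Fin p))).image Θ) ⊆ Y' ×ˢ (univ : Finset (Fin q)) := by
      intro z hz
      rw [Finset.mem_image] at hz
      obtain ⟨a, ha, rfl⟩ := hz
      rw [Finset.mem_product] at ha ⊢
      refine ⟨?_, Finset.mem_univ _⟩
      have ha1 : e1 a.1 ∈ X := by simpa [X'] using ha.1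
      simp only [Y', Finset.mem_filter, Finset.mem_univ, true_and]
      rw [upN, Finset.mem_filter]
      refine ⟨?_, e1 a.1, ha1, hΘ a⟩
      rw [hl2]
      exact Finset.mem_image_of_mem _ (Finset.mem_univ _)
    have h2 := Finset.card_le_card h1
    rw [Finset.card_image_of_injective _ Θ.injective, Finset.card_product, Finset.card_product,
      Finset.card_univ, Finset.card_univ, Fintype.card_fin, Fintype.card_fin] at h2
    exact h2
  rw [hX'] at hmain
  have hmain2 : X.card * p ≤ (upN rk r X).card * q := hmain.trans (Nat.mul_le_mul_right _ hY')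
  rw [hc1, hc2]
  have hB' : 0 < Fintype.card B' := by
    rcases Nat.eq_zero_or_pos (Fintype.card B') with h | h
    · rw [h, Nat.zero_mul] at hcard
      have : 0 < Fintype.card A * p := Nat.mul_pos hA hp
      omega
    · exact h
  rw [div_le_div_iff₀ (by exact_mod_cast hA) (by exact_mod_cast hB')]
  have hfin : X.card * Fintype.card B' ≤ (upN rk r X).card * Fintype.card A := by
    have h1 : (X.card * Fintype.card B') * q ≤ ((upN rk r X).card * Fintype.card A) * q := by
      calc (X.card * Fintype.card B') * q = X.card * (Fintype.card B' * q) := by ring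
        _ = (X.card * p) * Fintype.card A := by rw [← hcard]; ring
        _ ≤ ((upN rk r X).card * q) * Fintype.card A := Nat.mul_le_mul_right _ hmain2
        _ = ((upN rk r X).card * Fintype.card A) * q := by ring
    exact Nat.le_of_mul_le_mul_right h1 hq
  exact_mod_cast hfin

lemma exists_below (N : ℕ) (z : PN N) (hz : rkP N z ≠ 0) : ∃ z', z' < z := by
  match z, hz with
  | .inl ⟨⟨i, hi⟩, x⟩, hz =>
    have hi' : i + 1 ≤ N := by
      have h1 : N - i ≠ 0 := hz
      omega
    obtain ⟨Θ, hΘ⟩ := bal false i N (N - i) (by omega)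
    have h2 := hΘ (Θ.symm (x, ⟨0, by omega⟩))
    rw [Equiv.apply_symm_apply] at h2
    refine ⟨emb N false (i + 1) hi' (Θ.symm (x, ⟨0, by omega⟩)).1, ?_⟩
    apply lt_of_le_rk
    · exact h2
    · change N - (i + 1) ≠ N - i
      omega
  | .inr ⟨⟨i, hi⟩, x⟩, _ =>
    obtain ⟨Θ, hΘ⟩ := bal true i N (N - i) (by omega)
    have h2 := hΘ (x, 0)
    refine ⟨emb N true i (by omega) (Θ (x, 0)).1, ?_⟩
    apply lt_of_le_rk
    · exact le_true N (i + 1) i hi (by omega) x _ h2
    · rw [rk_emb_true]
      change N + i ≠ N + 1 + i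
      omega

lemma cover_rankP (N : ℕ) (z z' : PN N) (h : z ⋖ z') : rkP N z' = rkP N z + 1 := by
  have hle : leP N z z' := h.1.le
  have hlt := rkP_lt h.1
  by_contra hne
  match z, z', h, hle, hlt, hne with
  | .inl ⟨⟨i, hi⟩, x⟩, .inl ⟨⟨j, hj⟩, y⟩, h, hle, hlt, hne =>
    have hlt' : N - i < N - j := hlt
    have hne' : ¬ N - j = N - i + 1 := hne
    obtain ⟨v, h1, h2⟩ := rel_interp false j (j + 1) i N x y hle (by omega) (by omega)
    have hv : j + 1 ≤ N := by omega
    refine h.2 (c := emb N false (j + 1) hv v) ?_ ?_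
    · apply lt_of_le_rk
      · exact h1
      · change N - i ≠ N - (j + 1); omega
    · apply lt_of_le_rk
      · exact h2
      · change N - (j + 1) ≠ N - j; omega
  | .inl ⟨⟨i, hi⟩, x⟩, .inr ⟨⟨j, hj⟩, y⟩, h, hle, hlt, hne =>
    have hne' : ¬ N + 1 + j = N - i + 1 := hne
    obtain ⟨m, h1, h2⟩ := hle
    rcases Nat.eq_zero_or_pos i with hi0 | hi0
    · subst hi0
      have h1' : x = m := h1
      subst h1'
      obtain ⟨v, h3, h4⟩ := rel_interp true 0 1 (j + 1) N y x h2 (by omega) (by omega)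
      have hv : 1 ≤ N := by omega
      refine h.2 (c := emb N true 1 hv v) ?_ ?_
      · apply lt_of_le_rk
        · exact (le_mid N 0 1 (by omega) hv x v).2 ⟨x, (rfl : x = x), h4⟩
        · rw [rk_emb_true]
          change N - 0 ≠ N + 1; omega
      · apply lt_of_le_rk
        · exact le_true N (j + 1) 1 hj hv y v h3
        · rw [rk_emb_true]
          change N + 1 ≠ N + 1 + j; omega
    · refine h.2 (c := emb N false 0 (by omega) m) ?_ ?_
      · apply lt_of_le_rk
        · exact h1
        · change N - i ≠ N - 0; omega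
      · apply lt_of_le_rk
        · exact ⟨m, (rfl : m = m), h2⟩
        · change N - 0 ≠ N + 1 + j; omega
  | .inr _, .inl _, _, hle, _, _ => exact False.elim hle
  | .inr ⟨⟨i, hi⟩, x⟩, .inr ⟨⟨j, hj⟩, y⟩, h, hle, hlt, hne =>
    have hlt' : N + 1 + i < N + 1 + j := hlt
    have hne' : ¬ N + 1 + j = N + 1 + i + 1 := hne
    obtain ⟨v, h1, h2⟩ := rel_interp true (i + 1) (i + 2) (j + 1) N y x hle (by omega) (by omega)
    have hv : i + 2 ≤ N := by omega
    refine h.2 (c := emb N true (i + 2) hv v) ?_ ?_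
    · apply lt_of_le_rk
      · exact h2
      · change N + 1 + i ≠ N + 1 + (i + 1); omega
    · apply lt_of_le_rk
      · exact h1
      · change N + 1 + (i + 1) ≠ N + 1 + j; omega

theorem admissible_PN (N : ℕ) : Admissible (2 * N) (rkP N) where
  rank_le := rkP_le N
  nonempty := by
    intro r hr
    rw [← Finset.card_pos]
    rcases Nat.lt_or_ge r N with h | h
    · have h1 : r = N - (N - r) := by omega
      rw [h1, card_level_false N (N - r) (by omega)]
      exact card_L_pos _ _ (by omega)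
    · have h1 : r = N + (r - N) := by omega
      rw [h1, card_level_true N (r - N) (by omega)]
      exact card_L_pos _ _ (by omega)
  min_rank := by
    intro z hz
    by_contra h
    obtain ⟨z', h'⟩ := exists_below N z h
    exact hz.not_lt h'
  cover_rank := cover_rankP N
  symm := by
    intro r hr
    rcases Nat.lt_or_ge r N with h | h
    · have h1 : r = N - (N - r) := by omega
      have h2 : 2 * N - r = N + (N - r) := by omega
      rw [h2, card_level_true N (N - r) (by omega)]
      conv_lhs => rw [h1]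
      rw [card_level_false N (N - r) (by omega)]
    · have h1 : r = N + (r - N) := by omega
      have h2 : 2 * N - r = N - (r - N) := by omega
      rw [h2, card_level_false N (r - N) (by omega)]
      conv_lhs => rw [h1]
      rw [card_level_true N (r - N) (by omega)]
  unimodal := by
    refine ⟨N, by omega, ?_, ?_⟩
    · intro r hr
      have h1 : r = N - (N - r - 1 + 1) := by omega
      have h2 : r + 1 = N - (N - r - 1) := by omega
      rw [h2, card_level_false N (N - r - 1) (by omega)]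
      rw [h1, card_level_false N (N - r - 1 + 1) (by omega)]
      have h3 : N - (N - (N - r - 1 + 1)) - 1 = N - r - 1 := by omega
      rw [h3]
      exact card_L_anti _ _ (by omega)
    · intro r hr hr'
      have h1 : r = N + (r - N) := by omega
      have h2 : r + 1 = N + (r - N + 1) := by omega
      rw [h2, card_level_true N (r - N + 1) (by omega)]
      have h4 : (level (rkP N) r).card = Fintype.card (L (r - N) N) := by
        conv_lhs => rw [h1]
        rw [card_level_true N (r - N) (by omega)]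
      rw [h4]
      exact card_L_anti _ _ (by omega)
  matching := by
    intro r hr X hX _
    rcases Nat.lt_or_ge r N with h | h
    · obtain ⟨i, hi⟩ : ∃ i, i = N - r - 1 := ⟨_, rfl⟩
      have hi1 : i + 1 ≤ N := by omega
      have h1 : r = N - (i + 1) := by omega
      have h2 : r + 1 = N - i := by omega
      obtain ⟨Θ, hΘ⟩ := bal false i N (N - i) (by omega)
      refine nm_transfer (rkP N) r (emb N false (i + 1) hi1) (emb N false i (by omega))
        (emb_inj N _ _ _) (emb_inj N _ _ _) ?_ ?_ (N - i + 1) (N - i) (by omega) (by omega) Θ ?_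
        (card_L_pos _ _ hi1) X hX
      · rw [h1]; exact level_false N (i + 1) hi1
      · rw [h2]; exact level_false N i (by omega)
      · intro a
        apply lt_of_le_rk
        · exact hΘ a
        · change N - (i + 1) ≠ N - i
          omega
    · obtain ⟨i, hi⟩ : ∃ i, i = r - N := ⟨_, rfl⟩
      have hi1 : i + 1 ≤ N := by omega
      have h1 : r = N + i := by omega
      have h2 : r + 1 = N + (i + 1) := by omega
      have hi0 : i ≤ N := by omega
      obtain ⟨Θ, hΘ⟩ := bal true i N (N - i) (by omega)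
      refine nm_transfer (rkP N) r (emb N true i hi0) (emb N true (i + 1) hi1)
        (emb_inj N _ _ _) (emb_inj N _ _ _) ?_ ?_ (N - i) (N - i + 1) (by omega) (by omega) Θ.symm ?_
        (card_L_pos _ _ hi0) X hX
      · rw [h1]; exact level_true N i hi0
      · rw [h2]; exact level_true N (i + 1) hi1
      · intro a
        apply lt_of_le_rk
        · have h3 := hΘ (Θ.symm a)
          rw [Equiv.apply_symm_apply] at h3
          exact le_true N (i + 1) i hi1 hi0 _ _ h3
        · rw [rk_emb_true, rk_emb_true]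
          omega

/-! ### Size and width -/

lemma sum_tri : ∀ n : ℕ, 2 * ∑ i ∈ Finset.range n, (n - i) = n * (n + 1)
  | 0 => by simp
  | n + 1 => by
      rw [Finset.sum_range_succ']
      have h1 : ∑ i ∈ Finset.range n, (n + 1 - (i + 1)) = ∑ i ∈ Finset.range n, (n - i) := by
        apply Finset.sum_congr rfl
        intro i _
        omega
      rw [h1, Nat.mul_add, sum_tri n, Nat.sub_zero]
      ring

theorem card_PN (N : ℕ) : Fintype.card (PN N) = (N + 1) * w N := by
  have h0 : Fintype.card (PN N) =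
      (∑ i : Fin (N + 1), Fintype.card (L i N)) + ∑ i : Fin N, Fintype.card (L (i + 1) N) := by
    change Fintype.card ((Σ i : Fin (N + 1), L i N) ⊕ (Σ i : Fin N, L (i + 1) N)) = _
    rw [Fintype.card_sum, Fintype.card_sigma, Fintype.card_sigma]
  have h1 : (∑ i : Fin (N + 1), Fintype.card (L i N)) * (N + 1) =
      w N * ∑ i ∈ Finset.range (N + 1), (N + 1 - i) := by
    rw [Finset.sum_mul, ← Fin.sum_univ_eq_sum_range (fun i => N + 1 - i) (N + 1), Finset.mul_sum]
    apply Finset.sum_congr rfl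
    intro i _
    have hi := i.2
    rw [card_L i N (N - i) (by omega)]
    congr 1
    omega
  have h2 : (∑ i : Fin N, Fintype.card (L (i + 1) N)) * (N + 1) =
      w N * ∑ i ∈ Finset.range N, (N - i) := by
    rw [Finset.sum_mul, ← Fin.sum_univ_eq_sum_range (fun i => N - i) N, Finset.mul_sum]
    apply Finset.sum_congr rfl
    intro i _
    have hi := i.2
    rw [card_L (i + 1) N (N - (i + 1)) (by omega)]
    congr 1
    omega
  have h3 : 2 * (Fintype.card (PN N) * (N + 1)) = 2 * (((N + 1) * w N) * (N + 1)) := by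
    rw [h0, Nat.add_mul, h1, h2]
    calc 2 * (w N * ∑ i ∈ Finset.range (N + 1), (N + 1 - i) + w N * ∑ i ∈ Finset.range N, (N - i))
        = w N * (2 * ∑ i ∈ Finset.range (N + 1), (N + 1 - i)) +
          w N * (2 * ∑ i ∈ Finset.range N, (N - i)) := by ring
      _ = w N * ((N + 1) * (N + 1 + 1)) + w N * (N * (N + 1)) := by rw [sum_tri, sum_tri]
      _ = 2 * (((N + 1) * w N) * (N + 1)) := by ring
  have h4 := Nat.eq_of_mul_eq_mul_left (by omega) h3
  exact Nat.eq_of_mul_eq_mul_right (by omega) h4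

/-- root of an element of the poset -/
def rootP (N : ℕ) : PN N → Fin (w N)
  | .inl a => root false a.1 N a.2
  | .inr a => root true (a.1 + 1) N a.2

lemma rootP_comp (N : ℕ) (z z' : PN N) (h : rootP N z = rootP N z') : z ≤ z' ∨ z' ≤ z := by
  match z, z', h with
  | .inl a, .inl b, h =>
    rcases root_comp false _ _ _ a.2 b.2 h with h1 | h1
    · exact Or.inl h1
    · exact Or.inr h1
  | .inl a, .inr b, h =>
    left
    refine ⟨root false a.1 N a.2, B_root false _ _ _, ?_⟩
    have h' : root false a.1 N a.2 = root true (b.1 + 1) N b.2 := h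
    rw [h']
    exact B_root true _ _ _
  | .inr a, .inl b, h =>
    right
    refine ⟨root false b.1 N b.2, B_root false _ _ _, ?_⟩
    have h' : root true (a.1 + 1) N a.2 = root false b.1 N b.2 := h
    rw [← h']
    exact B_root true _ _ _
  | .inr a, .inr b, h =>
    rcases root_comp true _ _ _ a.2 b.2 h with h1 | h1
    · exact Or.inr h1
    · exact Or.inl h1

theorem width_PN (N : ℕ) : width (PN N) = w N := by
  classical
  apply le_antisymm
  · unfold width
    apply Finset.sup_le
    intro A hA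
    rw [Finset.mem_filter] at hA
    have hinj : Set.InjOn (rootP N) (A : Set (PN N)) := by
      intro x hx y hy h
      by_contra hne
      rcases rootP_comp N x y h with h1 | h1
      · exact hA.2 hx hy hne h1
      · exact hA.2 hy hx (Ne.symm hne) h1
    have h1 : (A.image (rootP N)).card ≤ Fintype.card (Fin (w N)) := Finset.card_le_univ _
    rw [Finset.card_image_of_injOn hinj, Fintype.card_fin] at h1
    exact h1
  · have hcard : (level (rkP N) (N - 0)).card = w N := by
      rw [card_level_false N 0 (Nat.zero_le _)]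
      exact Fintype.card_fin _
    have hanti : IsAntichain (· ≤ ·) (level (rkP N) (N - 0) : Set (PN N)) := by
      intro x hx y hy hne hle
      rw [Finset.mem_coe, mem_level] at hx hy
      have := rkP_lt (lt_of_le_of_ne hle hne)
      omega
    have h1 : level (rkP N) (N - 0) ∈
        univ.filter (fun A : Finset (PN N) => IsAntichain (· ≤ ·) (A : Set (PN N))) := by
      rw [Finset.mem_filter]
      exact ⟨Finset.mem_univ _, hanti⟩
    have h2 := Finset.le_sup (f := Finset.card) h1
    rw [hcard] at h2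
    exact h2

/-! ### Every partition into rank-symmetric chains has a part of size one -/

lemma chain_rank_inj {N : ℕ} {C : Finset (PN N)} (hC : IsChain (· ≤ ·) (C : Set (PN N)))
    {z z' : PN N} (hz : z ∈ C) (hz' : z' ∈ C) (h : rkP N z = rkP N z') : z = z' := by
  by_contra hne
  rcases hC hz hz' hne with h1 | h1
  · have := rkP_lt (lt_of_le_of_ne h1 hne)
    omega
  · have := rkP_lt (lt_of_le_of_ne h1 (Ne.symm hne))
    omega

/-- mirror element in a rank-symmetric chain -/
lemma mirror {N : ℕ} {C : Finset (PN N)} (hC : RSChain (2 * N) (rkP N) C) {z : PN N}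
    (hz : z ∈ C) : ∃ z' ∈ C, rkP N z' = 2 * N - rkP N z := by
  have h1 := hC.2 (rkP N z) (rkP_le N z)
  have h2 : 0 < (C.filter (fun x => rkP N x = rkP N z)).card := by
    rw [Finset.card_pos]
    exact ⟨z, Finset.mem_filter.2 ⟨hz, rfl⟩⟩
  rw [h1, Finset.card_pos] at h2
  obtain ⟨z', hz'⟩ := h2
  rw [Finset.mem_filter] at hz'
  exact ⟨z', hz'.1, hz'.2⟩

theorem singleton_forced (N : ℕ) (π : Finpartition (univ : Finset (PN N)))
    (hπ : ∀ C ∈ π.parts, RSChain (2 * N) (rkP N) C) : ∃ C ∈ π.parts, C.card = 1 := by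
  classical
  by_contra hcon
  push Not at hcon
  have huniq : ∀ C ∈ π.parts, ∀ C' ∈ π.parts, ∀ z : PN N, z ∈ C → z ∈ C' → C = C' := by
    intro C hC C' hC' z hz hz'
    exact (π.part_eq_of_mem hC hz).symm.trans (π.part_eq_of_mem hC' hz')
  have hdata : ∀ (i : ℕ) (hi : i + 1 ≤ N) (x : L (i + 1) N), ∃ (y : L (i + 1) N) (m : Fin (w N)),
      (∃ C ∈ π.parts, emb N false (i + 1) hi x ∈ C ∧ emb N true (i + 1) hi y ∈ C ∧
        (∀ m', emb N false 0 (Nat.zero_le _) m' ∈ C → m' = m)) ∧
      B false (i + 1) N x m ∧ B true (i + 1) N y m := by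
    intro i hi x
    obtain ⟨C, hC, hzC⟩ := π.exists_mem (Finset.mem_univ (emb N false (i + 1) hi x))
    obtain ⟨z', hz', hrk⟩ := mirror (hπ C hC) hzC
    rw [rk_emb_false] at hrk
    obtain ⟨y, hy⟩ := emb_true_surj N (i + 1) hi z' (by omega)
    subst hy
    have hch := (hπ C hC).1
    by_cases hm : ∃ m, emb N false 0 (Nat.zero_le _) m ∈ C
    · obtain ⟨m, hm⟩ := hm
      have e1 : B false (i + 1) N x m := by
        have hne : emb N false (i + 1) hi x ≠ emb N false 0 (Nat.zero_le _) m := by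
          intro h
          have h1 := congrArg (rkP N) h
          rw [rk_emb_false, rk_emb_false] at h1
          omega
        rcases hch hzC hm hne with h | h
        · exact h
        · have h1 : i + 1 ≤ 0 := rel_le false (i + 1) 0 N m x h
          omega
      have e2 : B true (i + 1) N y m := by
        have hne : emb N false 0 (Nat.zero_le _) m ≠ emb N true (i + 1) hi y := by
          intro h
          have h1 := congrArg (rkP N) h
          rw [rk_emb_false, rk_emb_true] at h1
          omega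
        rcases hch hm hz' hne with h | h
        · obtain ⟨m'', h1, h2⟩ := (le_mid N 0 (i + 1) (Nat.zero_le _) hi m y).1 h
          have h3 : m = m'' := h1
          rw [h3]; exact h2
        · exact False.elim h
      refine ⟨y, m, ⟨C, hC, hzC, hz', ?_⟩, e1, e2⟩
      intro m' hm'
      have h1 := chain_rank_inj hch hm' hm (by rw [rk_emb_false, rk_emb_false])
      exact emb_inj N false 0 _ h1
    · have hle : emb N false (i + 1) hi x ≤ emb N true (i + 1) hi y := by
        have hne : emb N false (i + 1) hi x ≠ emb N true (i + 1) hi y := by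
          intro h
          have h1 := congrArg (rkP N) h
          rw [rk_emb_false, rk_emb_true] at h1
          omega
        rcases hch hzC hz' hne with h | h
        · exact h
        · exact False.elim h
      obtain ⟨m, h1, h2⟩ := (le_mid N (i + 1) (i + 1) hi hi x y).1 hle
      refine ⟨y, m, ⟨C, hC, hzC, hz', ?_⟩, h1, h2⟩
      intro m' hm'
      exact absurd ⟨m', hm'⟩ hm
  have hdata' : ∀ (i : ℕ) (x : L (i + 1) N), ∃ (y : L (i + 1) N) (m : Fin (w N)),
      (∀ (hi : i + 1 ≤ N), ∃ C ∈ π.parts, emb N false (i + 1) hi x ∈ C ∧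
        emb N true (i + 1) hi y ∈ C ∧ (∀ m', emb N false 0 (Nat.zero_le _) m' ∈ C → m' = m)) ∧
      B false (i + 1) N x m ∧ B true (i + 1) N y m := by
    intro i x
    by_cases hi : i + 1 ≤ N
    · obtain ⟨y, m, h1, h2⟩ := hdata i hi x
      exact ⟨y, m, fun _ => h1, h2⟩
    · exact (isEmpty_L (i + 1) N (by omega) x).elim
  choose y m hy hm1 hm2 using hdata'
  refine no_fam N Unit () ⟨fun i a => (y i a.1, ()), ?_, fun i a => some (m i a.1), ?_, ?_, ?_⟩
  · intro i a b hab
    have h1 : y i a.1 = y i b.1 := congrArg Prod.fst hab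
    have hi : i + 1 ≤ N := by
      by_contra h
      exact isEmpty_L (i + 1) N (by omega) a.1
    obtain ⟨C, hC, c1, c2, -⟩ := hy i a.1 hi
    obtain ⟨C', hC', c1', c2', -⟩ := hy i b.1 hi
    rw [h1] at c2
    have h2 := huniq C hC C' hC' _ c2 c2'
    rw [← h2] at c1'
    have h3 := chain_rank_inj (hπ C hC).1 c1 c1' (by rw [rk_emb_false, rk_emb_false])
    exact Prod.ext (emb_inj N false (i + 1) hi h3) rfl
  · intro i a t ht
    have h1 : m i a.1 = t := Option.some.inj ht
    rw [← h1]
    exact ⟨rfl, rfl, hm1 i a.1, hm2 i a.1⟩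
  · intro i a h
    exact absurd h (by simp)
  · intro t
    obtain ⟨C, hC, hzC⟩ := π.exists_mem (Finset.mem_univ (emb N false 0 (Nat.zero_le _) t))
    have hcard : 1 < C.card := by
      have h1 : 0 < C.card := Finset.card_pos.2 ⟨_, hzC⟩
      have h2 := hcon C hC
      omega
    obtain ⟨z, hz, hne⟩ := Finset.exists_mem_ne hcard (emb N false 0 (Nat.zero_le _) t)
    have hrk : rkP N z ≠ N := by
      intro h
      exact hne (chain_rank_inj (hπ C hC).1 hz hzC (by rw [h]; rfl))
    have hlow : ∃ z' ∈ C, rkP N z' < N := by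
      rcases Nat.lt_or_ge (rkP N z) N with h | h
      · exact ⟨z, hz, h⟩
      · obtain ⟨z', hz', h'⟩ := mirror (hπ C hC) hz
        have := rkP_le N z
        exact ⟨z', hz', by omega⟩
    obtain ⟨z', hz', hlt⟩ := hlow
    obtain ⟨i, hi⟩ : ∃ i, i = N - rkP N z' - 1 := ⟨_, rfl⟩
    have hi1 : i + 1 ≤ N := by omega
    obtain ⟨x, hx⟩ := emb_false_surj N (i + 1) hi1 z' (by omega)
    subst hx
    obtain ⟨C', hC', c1, -, c3⟩ := hy i x hi1
    have h2 := huniq C hC C' hC' _ hz' c1
    rw [← h2] at c3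
    refine ⟨i, (x, ()), ?_⟩
    have h3 := c3 t hzC
    rw [h3]

/-! ### The final statements -/

lemma one_le_gP {P : Type} [PartialOrder P] [Fintype P] [DecidableEq P] {n : ℕ} {rk : P → ℕ}
    (hA : Admissible n rk) : 1 ≤ gP n rk := by
  obtain ⟨π, hπ⟩ := exists_partition hA
  obtain ⟨x, -⟩ := hA.nonempty 0 (Nat.zero_le _)
  apply le_csSup
  · refine ⟨Fintype.card P, ?_⟩
    rintro k ⟨ρ, hρ⟩
    obtain ⟨C, hC, -⟩ := ρ.exists_mem (Finset.mem_univ x)
    exact ((hρ C hC).2).trans (Finset.card_le_univ C)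
  · exact ⟨π, fun C hC => ⟨hπ C hC, Finset.card_pos.2 (π.nonempty_of_mem_parts hC)⟩⟩

lemma gP_PN (N : ℕ) : gP (2 * N) (rkP N) = 1 := by
  apply le_antisymm
  · obtain ⟨π, hπ⟩ := exists_partition (admissible_PN N)
    unfold gP
    apply csSup_le
    · exact ⟨1, π, fun C hC => ⟨hπ C hC, Finset.card_pos.2 (π.nonempty_of_mem_parts hC)⟩⟩
    · rintro k ⟨ρ, hρ⟩
      obtain ⟨C, hC, h1⟩ := singleton_forced N ρ (fun C hC => (hρ C hC).1)
      have h2 := (hρ C hC).2
      omega
  · exact one_le_gP (admissible_PN N)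

lemma card_eq (r : ℕ) (hr : 1 ≤ r) : Fintype.card (PN (r - 1)) = r * width (PN (r - 1)) := by
  rw [card_PN, width_PN]
  congr 1
  omega

lemma card_eq_rat (r : ℕ) (hr : 1 ≤ r) :
    (Fintype.card (PN (r - 1)) : ℚ) = (r : ℚ) * width (PN (r - 1)) := by
  exact_mod_cast card_eq r hr

lemma fR_nat (r : ℕ) (hr : 1 ≤ r) : fR (r : ℚ) = 1 := by
  have hmem : (1 : ℕ) ∈ {k | ∃ (P : Type) (_ : PartialOrder P) (_ : Fintype P)
      (_ : DecidableEq P) (n : ℕ) (rk : P → ℕ), Admissible n rk ∧
      (Fintype.card P : ℚ) = (r : ℚ) * width P ∧ gP n rk = k} :=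
    ⟨PN (r - 1), inferInstance, inferInstance, inferInstance, 2 * (r - 1), rkP (r - 1),
      admissible_PN _, card_eq_rat r hr, gP_PN _⟩
  apply le_antisymm
  · exact Nat.sInf_le hmem
  · obtain ⟨P, i1, i2, i3, n, rk, hA, -, h⟩ := Nat.sInf_mem ⟨1, hmem⟩
    have h1 := one_le_gP hA
    rw [h] at h1
    exact h1

/-- Main theorem.  (1) For every integer `r ≥ 1` there is an admissible poset `P` with
`|P| = r w(P)` such that every partition of `P` into rank-symmetric chains contains a chain of
size `1`.  (2) Hence `f(r) = 1` for every integer `r ≥ 1`.  (3) In particular `f(r)` does not tend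
to infinity as `r → ∞` through the set of ratios.  (4) The equivalent formulation of the question
fails (for `m = 2`). -/
theorem result :
    (∀ r : ℕ, 1 ≤ r → ∃ (P : Type) (_ : PartialOrder P) (_ : Fintype P) (_ : DecidableEq P)
      (n : ℕ) (rk : P → ℕ), Admissible n rk ∧ Fintype.card P = r * width P ∧
        ∀ π : Finpartition (univ : Finset P), (∀ C ∈ π.parts, RSChain n rk C) →
          ∃ C ∈ π.parts, C.card = 1) ∧
    (∀ r : ℕ, 1 ≤ r → (r : ℚ) ∈ ratios ∧ fR (r : ℚ) = 1) ∧
    (¬ Filter.Tendsto fR (Filter.atTop ⊓ Filter.principal ratios) Filter.atTop) ∧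
    (¬ ∀ m : ℕ, ∃ R : ℝ, ∀ (P : Type) [PartialOrder P] [Fintype P] [DecidableEq P] (n : ℕ)
      (rk : P → ℕ), Admissible n rk → R * width P ≤ Fintype.card P →
        ∃ π : Finpartition (univ : Finset P), ∀ C ∈ π.parts, RSChain n rk C ∧ m ≤ C.card) := by
  have hrat : ∀ r : ℕ, 1 ≤ r → (r : ℚ) ∈ ratios := fun r hr =>
    ⟨PN (r - 1), inferInstance, inferInstance, inferInstance, 2 * (r - 1), rkP (r - 1),
      admissible_PN _, card_eq_rat r hr⟩
  refine ⟨?_, ?_, ?_, ?_⟩
  · intro r hr
    exact ⟨PN (r - 1), inferInstance, inferInstance, inferInstance, 2 * (r - 1), rkP (r - 1),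
      admissible_PN _, card_eq r hr, singleton_forced (r - 1)⟩
  · intro r hr
    exact ⟨hrat r hr, fR_nat r hr⟩
  · intro h
    have h1 := h.eventually_ge_atTop 2
    rw [Filter.eventually_inf_principal, Filter.eventually_atTop] at h1
    obtain ⟨a, ha⟩ := h1
    obtain ⟨r, hr⟩ := exists_nat_ge a
    have h2 : (1 : ℕ) ≤ r + 1 := by omega
    have h3 := ha ((r + 1 : ℕ) : ℚ) (by push_cast; linarith) (hrat (r + 1) h2)
    rw [fR_nat (r + 1) h2] at h3
    omega
  · intro h
    obtain ⟨R, hR⟩ := h 2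
    obtain ⟨r, hr⟩ := exists_nat_ge R
    have h2 : (1 : ℕ) ≤ r + 1 := by omega
    have hle : R * (width (PN (r + 1 - 1)) : ℝ) ≤ (Fintype.card (PN (r + 1 - 1)) : ℝ) := by
      rw [card_eq (r + 1) h2, Nat.cast_mul]
      apply mul_le_mul_of_nonneg_right _ (Nat.cast_nonneg _)
      push_cast; linarith
    obtain ⟨π, hπ⟩ := hR (PN (r + 1 - 1)) (2 * (r + 1 - 1)) (rkP (r + 1 - 1)) (admissible_PN _) hle
    obtain ⟨C, hC, h1⟩ := singleton_forced (r + 1 - 1) π (fun C hC => (hπ C hC).1)
    have h3 := (hπ C hC).2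
    omega

end Pool.Agent.Results.MP_975a4f_co.SingletonForcedH23
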